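import Pool.Agent.H89.DP.Defs3

/-! # DPO-ASY (helper82) -/

set_option autoImplicit false

namespace Pool.Agent.H89.DP.L.ASY

/-- the reciprocal of the factorial -/
noncomputable def al (n : ℕ) : ℚ := 1 / (n.factorial : ℚ)

lemma al_pos (n : ℕ) : 0 < al n := by
  unfold al
  have : (0 : ℚ) < n.factorial := by exact_mod_cast Nat.factorial_pos n
  positivity

lemma al_succ (n : ℕ) : ((n : ℚ) + 1) * al (n + 1) = al n := by
  unfold al
  have : (n.factorial : ℚ) ≠ 0 := by exact_mod_cast (Nat.factorial_pos n).ne'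
  have h2 : (n : ℚ) + 1 ≠ 0 := by positivity
  rw [Nat.factorial_succ]
  push_cast
  field_simp

/-- the linear coefficient of `H` -/
noncomputable def gg (n : ℕ) : ℚ := (2 * n + 3 / 2 * n * (n - 1) - 1) * al n

/-- the error constants of `H` -/
noncomputable def kk : ℕ → ℚ
  | 0 => 0
  | 1 => 0
  | n + 2 => kk n + (al n + |gg n| + 2 * (3 * ((n : ℚ) + 2) / 2 - 2) * al n)

/-- the error constants of `M` and `L` -/
noncomputable def bc : ℕ → ℚ × ℚ
  | 0 => (0, 0)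
  | 1 => (0, 0)
  | n + 2 => ((bc (n + 1)).1 + (bc (n + 1)).2,
      2 * ((n : ℚ) + 1) * ((bc (n + 1)).1 + (bc (n + 1)).2) + kk n)

lemma kk_nonneg : ∀ n : ℕ, 0 ≤ kk n
  | 0 => le_rfl
  | 1 => le_rfl
  | n + 2 => by
    have h := kk_nonneg n
    have h1 := al_pos n
    rw [kk]
    have h2 : (0 : ℚ) ≤ 3 * ((n : ℚ) + 2) / 2 - 2 := by
      have : (0 : ℚ) ≤ n := Nat.cast_nonneg n
      linarith
    positivity

lemma bc_nonneg : ∀ n : ℕ, 0 ≤ (bc n).1 ∧ 0 ≤ (bc n).2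
  | 0 => ⟨le_rfl, le_rfl⟩
  | 1 => ⟨le_rfl, le_rfl⟩
  | n + 2 => by
    obtain ⟨h1, h2⟩ := bc_nonneg (n + 1)
    have h3 := kk_nonneg n
    rw [bc]
    constructor
    · simp only; positivity
    · simp only; positivity

lemma b_succ : ∀ n : ℕ, (bc (n + 1)).1 = (bc n).1 + (bc n).2
  | 0 => by simp [bc]
  | n + 1 => by rw [bc]

lemma c_succ (n : ℕ) : (bc (n + 2)).2 = 2 * ((n : ℚ) + 1) * (bc (n + 2)).1 + kk n := by
  rw [bc]

theorem main : S_ASY := by
  refine ⟨fun n => (bc n).2, fun r hr => ?_⟩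
  have hr1 : (1 : ℚ) ≤ r := by exact_mod_cast hr
  have hr0 : (0 : ℚ) < r := by linarith
  obtain ⟨x, hx⟩ : ∃ x : ℚ, x = 1 / (r : ℚ) := ⟨_, rfl⟩
  have hx0 : 0 < x := by rw [hx]; positivity
  have hx1 : x ≤ 1 := by rw [hx, div_le_one hr0]; exact hr1
  have hrx : (r : ℚ) * x = 1 := by rw [hx]; field_simp
  obtain ⟨l, hl⟩ : ∃ l : ℕ → ℚ, ∀ n, l n = al n + 3 / 2 * (n * (n - 1) * al n) * x -
    (bc n).2 * x ^ 2 := ⟨_, fun n => rfl⟩
  obtain ⟨m, hm⟩ : ∃ m : ℕ → ℚ, ∀ n, m n = n * al n + (3 * n / 2 - 2) * (n * (n - 1) * al n) * x -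
    (bc n).1 * x ^ 2 := ⟨_, fun n => rfl⟩
  obtain ⟨h, hh⟩ : ∃ h : ℕ → ℚ, ∀ n, h n = al n + gg n * x + kk n * x ^ 2 := ⟨_, fun n => rfl⟩
  have e1 : ∀ n : ℕ, m (n + 1) ≤ x * m n + l n := by
    intro n
    have h1 := al_succ n
    have h0 := al_pos n
    have hb := (bc_nonneg n).1
    have hn : (0 : ℚ) ≤ (3 * n / 2 - 2) * (n * (n - 1)) := by
      rcases Nat.lt_or_ge n 2 with h | h
      · interval_cases n <;> norm_num
      · have h2 : (2 : ℚ) ≤ n := by exact_mod_cast h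
        have h3 : (0 : ℚ) ≤ 3 * n / 2 - 2 := by linarith
        have h4 : (0 : ℚ) ≤ n - 1 := by linarith
        positivity
    have h5 : x * m n + l n - m (n + 1) =
        x ^ 2 * ((3 * n / 2 - 2) * (n * (n - 1)) * al n + (bc n).1 * (1 - x)) := by
      rw [hm, hm, hl, b_succ]
      push_cast
      linear_combination (-1 - (3 * ((n : ℚ) + 1) / 2 - 2) * n * x) * h1
    have h6 : 0 ≤ x ^ 2 * ((3 * n / 2 - 2) * (n * (n - 1)) * al n + (bc n).1 * (1 - x)) := by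
      have h7 : 0 ≤ 1 - x := by linarith
      positivity
    linarith
  have al2 : ∀ n : ℕ, ((n : ℚ) + 2) * (n + 1) * al (n + 2) = al n := by
    intro n
    have h1 := al_succ n
    have h2 := al_succ (n + 1)
    push_cast at h2
    linear_combination h1 + ((n : ℚ) + 1) * h2
  have e2 : ∀ n : ℕ, x ^ 2 * h n + 2 * x * m (n + 2) + (1 - x) * l (n + 2) ≤ h (n + 2) := by
    intro n
    have h1 := al2 n
    have h0 := al_pos n
    obtain ⟨hb, hc⟩ := bc_nonneg (n + 2)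
    have hk := kk_nonneg n
    have hg := le_abs_self (gg n)
    have hg0 := abs_nonneg (gg n)
    have h5 : h (n + 2) - (x ^ 2 * h n + 2 * x * m (n + 2) + (1 - x) * l (n + 2)) =
        x ^ 2 * ((|gg n| - gg n * x) + kk n * (1 - x ^ 2) + 2 * (bc (n + 2)).1 * x +
          (bc (n + 2)).2 * (1 - x) + 3 / 2 * al n) := by
      rw [hh, hh, hm, hl]
      rw [kk, gg]
      push_cast
      linear_combination (2 * (3 * ((n : ℚ) + 2) / 2 - 2) * x ^ 2 * (-1)
        - 3 / 2 * x ^ 2 * (-1)) * h1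
    have h6 : 0 ≤ (|gg n| - gg n * x) := by
      have : gg n * x ≤ |gg n| * 1 := by gcongr
      linarith
    have h7 : 0 ≤ 1 - x := by linarith
    have h8 : 0 ≤ 1 - x ^ 2 := by nlinarith
    have h9 : 0 ≤ x ^ 2 * ((|gg n| - gg n * x) + kk n * (1 - x ^ 2) + 2 * (bc (n + 2)).1 * x +
          (bc (n + 2)).2 * (1 - x) + 3 / 2 * al n) := by positivity
    linarith
  have e3 : ∀ n : ℕ, ((n : ℚ) + 1) * (n + 2) * l (n + 2) ≤ 2 * (n + 1) * m (n + 2) - h n := by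
    intro n
    have h1 := al2 n
    obtain ⟨hb, hc⟩ := bc_nonneg (n + 2)
    have hn0 : (0 : ℚ) ≤ n := Nat.cast_nonneg n
    have h5 : 2 * ((n : ℚ) + 1) * m (n + 2) - h n - ((n : ℚ) + 1) * (n + 2) * l (n + 2) =
        x ^ 2 * (((n : ℚ) + 1) * (n + 2) * (bc (n + 2)).2 - (2 * ((n : ℚ) + 1) * (bc (n + 2)).1 + kk n)) := by
      rw [hh, hm, hl, gg]
      push_cast
      linear_combination (1 + 2 * ((n : ℚ) + 1) * (3 * ((n : ℚ) + 2) / 2 - 2) * x -
        3 / 2 * ((n : ℚ) + 1) * (n + 2) * x) * h1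
    rw [← c_succ] at h5
    have h6 : 0 ≤ x ^ 2 * (((n : ℚ) + 1) * (n + 2) * (bc (n + 2)).2 - (bc (n + 2)).2) := by
      have h7 : (1 : ℚ) ≤ ((n : ℚ) + 1) * (n + 2) := by nlinarith
      have h8 : 0 ≤ ((n : ℚ) + 1) * (n + 2) * (bc (n + 2)).2 - (bc (n + 2)).2 := by nlinarith
      positivity
    linarith
  refine ⟨fun n => r ^ n * l n, fun n => r ^ n * m n, fun n => r ^ (n + 2) * h n, ?_, ?_, ?_, ?_, ?_,
    fun n => ?_, fun n => ?_, fun n => ?_, fun n => ?_⟩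
  · simp [hl, bc, al]
  · simp [hl, bc, al]
  · simp [hm, bc, al]
  · simp only [hh, kk, gg, al, Nat.factorial]
    push_cast
    linear_combination (-(r : ℚ)) * hrx
  · simp only [hh, kk, gg, al, Nat.factorial]
    push_cast
    linear_combination ((r : ℚ) ^ 2) * hrx
  · have h1 := mul_le_mul_of_nonneg_left (e1 n) (show (0 : ℚ) ≤ r ^ (n + 1) by positivity)
    refine h1.trans (le_of_eq ?_)
    simp only
    rw [pow_succ]
    linear_combination ((r : ℚ) ^ n * m n) * hrx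
  · have h1 := mul_le_mul_of_nonneg_left (e2 n) (show (0 : ℚ) ≤ r ^ (n + 4) by positivity)
    refine le_trans (le_of_eq ?_) h1
    simp only
    have h2 : (r : ℚ) ^ (n + 4) = r ^ n * r ^ 4 := pow_add _ _ _
    have h3 : (r : ℚ) ^ (n + 2) = r ^ n * r ^ 2 := pow_add _ _ _
    rw [h2, h3]
    linear_combination (-(r : ℚ) ^ n * (r ^ 2 * h n * (r * x + 1) + 2 * r ^ 3 * m (n + 2) -
      r ^ 3 * l (n + 2))) * hrx
  · have h1 := mul_le_mul_of_nonneg_left (e3 n) (show (0 : ℚ) ≤ r ^ (n + 2) by positivity)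
    simp only
    linarith
  · simp only
    rw [hl]
    have h1 := al2 n
    have h2 : (r : ℚ) ^ (n + 2) = r ^ n * r ^ 2 := pow_add _ _ _
    have h3 : (r : ℚ) ^ (n + 1) = r ^ n * r := pow_succ _ _
    have h4 : 3 / 2 * (r : ℚ) ^ (n + 1) / n.factorial = 3 / 2 * (r : ℚ) ^ (n + 1) * al n := by
      unfold al; ring
    have h5 : (r : ℚ) ^ (n + 2) / (n + 2).factorial = (r : ℚ) ^ (n + 2) * al (n + 2) := by
      unfold al; ring
    rw [h4, h5, h2, h3]
    push_cast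
    linear_combination (3 / 2 * (r : ℚ) ^ n * r ^ 2 * x) * h1 +
      (3 / 2 * (r : ℚ) ^ n * r * al n - (bc (n + 2)).2 * (r : ℚ) ^ n * (r * x + 1)) * hrx

end Pool.Agent.H89.DP.L.ASY
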