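import Pool.Agent.H89.DP.Defs

/-! DPO-BASE (helper10): the 3-differential poset with 50 elements of rank 4, adapted from the library. -/

set_option autoImplicit false

namespace Pool.Agent.H89.DP.L.BASE

open Finset

/-- level sizes -/
def s : ℕ → ℕ
  | 0 => 1
  | 1 => 3
  | 2 => 9
  | 3 => 22
  | 4 => 50
  | (n + 5) => s (n + 3) + 3 * s (n + 4)

def tab : ℕ → List ℕ
  | 0 => [1, 1, 1]
  | 1 => [1, 1, 3, 2, 2, 5, 6, 4, 4]
  | 2 => [1, 3, 2, 5, 6, 12, 20, 8, 24, 16, 33, 34, 100, 72, 80, 160, 192, 288, 320, 128, 384, 256]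
  | _ => [1146880, 167936, 26, 12320, 286720, 134144, 352, 5128, 20544, 331776, 6160, 3, 1025, 9,
      6, 1026, 2050, 2052, 20, 40, 72, 48, 80, 160, 576, 384, 8320, 768, 8448, 16640, 16896, 33792,
      34816, 73728, 81920, 557056, 589824, 393216, 1179648, 2228224, 1310720, 2359296, 1572864,
      3145728, 1, 4, 128, 512, 524288, 2097152]

/-- cover relation between level `n` (index `i`) and level `n+1` (index `j`) -/
def C : ℕ → ℕ → ℕ → Bool
  | 0, i, j => ((tab 0).getD j 0).testBit i
  | 1, i, j => ((tab 1).getD j 0).testBit i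
  | 2, i, j => ((tab 2).getD j 0).testBit i
  | 3, i, j => ((tab 3).getD j 0).testBit i
  | (n + 4), i, j => if j < s (n + 3) then C (n + 3) j i else decide ((j - s (n + 3)) / 3 = i)

lemma filter_split (a b : ℕ) (Q : ℕ → Prop) [DecidablePred Q] :
    ((range (a + b)).filter Q).card =
      ((range a).filter Q).card + ((range b).filter (fun t => Q (a + t))).card := by
  simp only [card_filter]
  rw [sum_range_add]

lemma up_succ (n i : ℕ) (hi : i < s (n + 1)) :
    ((range (s (n + 2))).filter (fun j => C (n + 1) i j = true)).card =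
      ((range (s n)).filter (fun k => C n k i = true)).card + 3 := by
  rcases n with _ | _ | _ | n
  · revert i; decide +kernel
  · revert i; decide +kernel
  · revert i; decide +kernel
  · show ((range (s (n + 3 + 2))).filter (fun j => C (n + 3 + 1) i j = true)).card =
      ((range (s (n + 3))).filter (fun k => C (n + 3) k i = true)).card + 3
    have e : s (n + 3 + 2) = s (n + 3) + 3 * s (n + 4) := rfl
    rw [e, filter_split]
    congr 1
    · congr 1
      apply filter_congr
      intro j hj
      have : C (n + 3 + 1) i j = C (n + 3) j i := by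
        show C (n + 4) i j = _
        rw [C, if_pos (mem_range.1 hj)]
      rw [this]
    · have : (range (3 * s (n + 4))).filter (fun t => C (n + 3 + 1) i (s (n + 3) + t) = true) =
          Ico (3 * i) (3 * i + 3) := by
        ext t
        have h : C (n + 3 + 1) i (s (n + 3) + t) = decide (t / 3 = i) := by
          show C (n + 4) i _ = _
          rw [C, if_neg (by omega)]
          simp
        have hi' : i < s (n + 4) := hi
        simp only [mem_filter, mem_range, h, decide_eq_true_eq, mem_Ico]
        omega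
      rw [this]; simp

lemma up_zero (i : ℕ) (hi : i < s 0) :
    ((range (s 1)).filter (fun j => C 0 i j = true)).card = 3 := by
  revert i; decide +kernel

lemma pair_succ (n i i' : ℕ) (hi : i < s (n + 1)) (hi' : i' < s (n + 1)) (hne : i ≠ i') :
    ((range (s n)).filter (fun k => C n k i = true ∧ C n k i' = true)).card =
      ((range (s (n + 2))).filter (fun j => C (n + 1) i j = true ∧ C (n + 1) i' j = true)).card := by
  match n, hi, hi' with
  | 0, hi, hi' =>
    have : ∀ i < s 1, ∀ i' < s 1, i ≠ i' →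
      ((range (s 0)).filter (fun k => C 0 k i = true ∧ C 0 k i' = true)).card =
      ((range (s 2)).filter (fun j => C 1 i j = true ∧ C 1 i' j = true)).card := by
      decide +kernel
    exact this i hi i' hi' hne
  | 1, hi, hi' =>
    have : ∀ i < s 2, ∀ i' < s 2, i ≠ i' →
      ((range (s 1)).filter (fun k => C 1 k i = true ∧ C 1 k i' = true)).card =
      ((range (s 3)).filter (fun j => C 2 i j = true ∧ C 2 i' j = true)).card := by
      decide +kernel
    exact this i hi i' hi' hne
  | 2, hi, hi' =>
    have : ∀ i < s 3, ∀ i' < s 3, i ≠ i' →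
      ((range (s 2)).filter (fun k => C 2 k i = true ∧ C 2 k i' = true)).card =
      ((range (s 4)).filter (fun j => C 3 i j = true ∧ C 3 i' j = true)).card := by
      decide +kernel
    exact this i hi i' hi' hne
  | (n + 3), hi, hi' =>
    have e : s (n + 3 + 2) = s (n + 3) + 3 * s (n + 4) := rfl
    rw [e, filter_split]
    have h0 : (range (3 * s (n + 4))).filter (fun t => C (n + 3 + 1) i (s (n + 3) + t) = true ∧
        C (n + 3 + 1) i' (s (n + 3) + t) = true) = ∅ := by
      apply filter_false_of_mem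
      intro t _
      have h : ∀ i, C (n + 3 + 1) i (s (n + 3) + t) = decide (t / 3 = i) := by
        intro i
        show C (n + 4) i _ = _
        rw [C, if_neg (by omega)]
        simp
      simp only [h, decide_eq_true_eq]
      omega
    rw [h0, card_empty, add_zero]
    congr 1
    apply filter_congr
    intro j hj
    have : ∀ i, C (n + 3 + 1) i j = C (n + 3) j i := by
      intro i
      show C (n + 4) i j = _
      rw [C, if_pos (mem_range.1 hj)]
    rw [this, this]

lemma has_down (n j : ℕ) (hj : j < s (n + 1)) : ∃ i < s n, C n i j = true := by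
  rcases n with _ | _ | _ | _ | n
  · revert j; decide +kernel
  · revert j; decide +kernel
  · revert j; decide +kernel
  · revert j; decide +kernel
  · show ∃ i < s (n + 4), C (n + 4) i j = true
    have hj : j < s (n + 4 + 1) := hj
    by_cases h : j < s (n + 3)
    · have h1 := up_succ (n + 2) j h
      have : ((range (s (n + 2 + 2))).filter (fun t => C (n + 2 + 1) j t = true)).Nonempty := by
        rw [← card_pos]; omega
      obtain ⟨t, ht⟩ := this
      rw [mem_filter, mem_range] at ht
      refine ⟨t, ht.1, ?_⟩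
      rw [C, if_pos h]; exact ht.2
    · refine ⟨(j - s (n + 3)) / 3, ?_, ?_⟩
      · have e : s (n + 4 + 1) = s (n + 3) + 3 * s (n + 4) := rfl
        omega
      · rw [C, if_neg h]; simp

/-- the poset -/
structure P where
  n : ℕ
  i : ℕ
  h : i < s n

lemma P.ext' {x y : P} (h1 : x.n = y.n) (h2 : x.i = y.i) : x = y := by
  cases x; cases y; simp only at h1 h2; subst h1; subst h2; rfl

def E (x y : P) : Prop := y.n = x.n + 1 ∧ C x.n x.i y.i = true

lemma rank_le {x y : P} (h : Relation.ReflTransGen E x y) : x = y ∨ x.n < y.n := by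
  induction h with
  | refl => exact Or.inl rfl
  | tail _ h2 ih =>
    right
    rcases ih with rfl | ih
    · have := h2.1; omega
    · have := h2.1; omega

instance : PartialOrder P where
  le x y := Relation.ReflTransGen E x y
  le_refl _ := Relation.ReflTransGen.refl
  le_trans _ _ _ := Relation.ReflTransGen.trans
  le_antisymm x y h1 h2 := by
    rcases rank_le h1 with h | h
    · exact h
    · rcases rank_le h2 with h' | h'
      · exact h'.symm
      · omega

lemma le_def (x y : P) : x ≤ y ↔ Relation.ReflTransGen E x y := Iff.rfl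

lemma rank_lt {x y : P} (h : x < y) : x.n < y.n := by
  rcases rank_le h.le with h' | h'
  · exact absurd h' h.ne
  · exact h'

lemma E_lt {x y : P} (h : E x y) : x < y := by
  refine lt_of_le_of_ne (Relation.ReflTransGen.single h) ?_
  rintro rfl
  have := h.1; omega

lemma cov_iff (x y : P) : x ⋖ y ↔ E x y := by
  constructor
  · intro h
    rcases Relation.ReflTransGen.cases_head h.le with h' | ⟨z, hz, hzy⟩
    · exact absurd h' h.ne
    · have h1 := E_lt hz
      have h2 : z ≤ y := hzy
      rcases h2.eq_or_lt with rfl | h3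
      · exact hz
      · exact absurd h3 (h.2 h1)
  · intro h
    refine ⟨E_lt h, fun z h1 h2 => ?_⟩
    have := rank_lt h1
    have := rank_lt h2
    have := h.1
    omega

lemma bot_le' (n : ℕ) : ∀ x : P, x.n = n → (⟨0, 0, by decide⟩ : P) ≤ x := by
  induction n with
  | zero =>
    intro x hx
    have h := x.h
    rw [hx] at h
    have : s 0 = 1 := rfl
    exact le_of_eq (P.ext' hx.symm (by simp only; omega))
  | succ n ih =>
    intro x hx
    have h := x.h
    rw [hx] at h
    obtain ⟨i, hi, hc⟩ := has_down n x.i h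
    exact (ih ⟨n, i, hi⟩ rfl).trans (E_lt (x := ⟨n, i, hi⟩) ⟨hx, hc⟩).le

instance : OrderBot P where
  bot := ⟨0, 0, by decide⟩
  bot_le x := bot_le' x.n x rfl

lemma ncard_level (m : ℕ) (Q : ℕ → Prop) [DecidablePred Q] :
    {z : P | z.n = m ∧ Q z.i}.Finite ∧
      {z : P | z.n = m ∧ Q z.i}.ncard = ((range (s m)).filter Q).card := by
  have hinj : Set.InjOn (fun z : P => z.i) {z : P | z.n = m ∧ Q z.i} := by
    intro x hx y hy h
    exact P.ext' (hx.1.trans hy.1.symm) h
  have him : (fun z : P => z.i) '' {z : P | z.n = m ∧ Q z.i} =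
      (((range (s m)).filter Q : Finset ℕ) : Set ℕ) := by
    ext t
    simp only [Set.mem_image, Set.mem_ofPred_eq, coe_filter, mem_range]
    constructor
    · rintro ⟨z, ⟨h1, h2⟩, rfl⟩
      exact ⟨h1 ▸ z.h, h2⟩
    · rintro ⟨h1, h2⟩
      exact ⟨⟨m, t, h1⟩, ⟨rfl, h2⟩, rfl⟩
  constructor
  · apply Set.Finite.of_finite_image _ hinj
    rw [him]; exact finite_toSet _
  · rw [← Set.InjOn.ncard_image hinj, him, Set.ncard_coe_finset]

lemma level_finite (m : ℕ) : {z : P | z.n = m}.Finite := by
  simpa using (ncard_level m (fun _ => True)).1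

lemma finite_Icc (x y : P) : (Set.Icc x y).Finite := by
  apply Set.Finite.subset (Set.Finite.biUnion (Set.finite_Iic y.n) (fun m _ => level_finite m))
  intro z hz
  simp only [Set.mem_iUnion, Set.mem_Iic, Set.mem_ofPred_eq]
  refine ⟨z.n, ?_, rfl⟩
  rcases rank_le hz.2 with h | h
  · rw [h]
  · exact h.le

noncomputable instance : LocallyFiniteOrder P := by
  classical exact LocallyFiniteOrder.ofFiniteIcc finite_Icc

lemma up_down (x : P) : {z : P | x ⋖ z}.Finite ∧
    {z : P | x ⋖ z}.ncard = {z : P | z ⋖ x}.ncard + 3 := by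
  obtain ⟨n, i, hi⟩ := x
  have e1 : {z : P | (⟨n, i, hi⟩ : P) ⋖ z} = {z : P | z.n = n + 1 ∧ C n i z.i = true} := by
    ext z; simp only [Set.mem_ofPred_eq, cov_iff, E]
  rw [e1]
  refine ⟨(ncard_level (n + 1) (fun j => C n i j = true)).1, ?_⟩
  rw [(ncard_level (n + 1) (fun j => C n i j = true)).2]
  cases n with
  | zero =>
    have e2 : {z : P | z ⋖ (⟨0, i, hi⟩ : P)} = ∅ := by
      ext z; simp [cov_iff, E]
    rw [e2, up_zero i hi]; simp
  | succ n =>
    have e2 : {z : P | z ⋖ (⟨n + 1, i, hi⟩ : P)} = {z : P | z.n = n ∧ C n z.i i = true} := by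
      ext z
      simp only [Set.mem_ofPred_eq, cov_iff, E]
      constructor
      · rintro ⟨h1, h2⟩
        have : z.n = n := by omega
        exact ⟨this, this ▸ h2⟩
      · rintro ⟨h1, h2⟩
        exact ⟨by omega, h1 ▸ h2⟩
    rw [e2, (ncard_level n (fun k => C n k i = true)).2, up_succ n i hi]

lemma pair_eq (x y : P) (hne : x ≠ y) :
    {z : P | z ⋖ x ∧ z ⋖ y}.ncard = {z : P | x ⋖ z ∧ y ⋖ z}.ncard := by
  by_cases hn : x.n = y.n
  · obtain ⟨n, i, hi⟩ := x
    obtain ⟨n', i', hi'⟩ := y
    simp only at hn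
    subst hn
    have hii : i ≠ i' := fun h => hne (P.ext' rfl h)
    cases n with
    | zero =>
      have : s 0 = 1 := rfl
      omega
    | succ n =>
      have e1 : {z : P | (⟨n + 1, i, hi⟩ : P) ⋖ z ∧ (⟨n + 1, i', hi'⟩ : P) ⋖ z} =
          {z : P | z.n = n + 2 ∧ (C (n + 1) i z.i = true ∧ C (n + 1) i' z.i = true)} := by
        ext z; simp only [Set.mem_ofPred_eq, cov_iff, E]; tauto
      have e2 : {z : P | z ⋖ (⟨n + 1, i, hi⟩ : P) ∧ z ⋖ (⟨n + 1, i', hi'⟩ : P)} =
          {z : P | z.n = n ∧ (C n z.i i = true ∧ C n z.i i' = true)} := by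
        ext z
        simp only [Set.mem_ofPred_eq, cov_iff, E]
        constructor
        · rintro ⟨⟨h1, h2⟩, -, h3⟩
          have : z.n = n := by omega
          exact ⟨this, this ▸ h2, this ▸ h3⟩
        · rintro ⟨h1, h2, h3⟩
          exact ⟨⟨by omega, h1 ▸ h2⟩, by omega, h1 ▸ h3⟩
      rw [e1, e2, (ncard_level n (fun k => C n k i = true ∧ C n k i' = true)).2,
        (ncard_level (n + 2) (fun j => C (n + 1) i j = true ∧ C (n + 1) i' j = true)).2,
        pair_succ n i i' hi hi' hii]
  · have e1 : {z : P | x ⋖ z ∧ y ⋖ z} = ∅ := by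
      ext z
      simp only [Set.mem_ofPred_eq, cov_iff, E, Set.mem_empty_iff_false, iff_false]
      rintro ⟨⟨h1, -⟩, h2, -⟩; omega
    have e2 : {z : P | z ⋖ x ∧ z ⋖ y} = ∅ := by
      ext z
      simp only [Set.mem_ofPred_eq, cov_iff, E, Set.mem_empty_iff_false, iff_false]
      rintro ⟨⟨h1, -⟩, h2, -⟩; omega
    rw [e1, e2]

lemma level_card (m : ℕ) : {x : P | x.n = m}.ncard = s m := by
  have := (ncard_level m (fun _ => True)).2
  simp only [and_true, filter_true, card_range] at this
  exact this

def pl : ℕ → ℕ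
  | 0 => 1
  | 1 => 1
  | 2 => 2
  | 3 => 3
  | 4 => 5
  | _ => 0

lemma card_ge (n : ℕ) (S : Finset (Multiset ℕ)) (h1 : ∀ m ∈ S, ∀ a ∈ m, 0 < a)
    (h2 : ∀ m ∈ S, m.sum = n) : S.card ≤ Fintype.card (Nat.Partition n) := by
  rw [← Fintype.card_coe S]
  refine Fintype.card_le_of_injective
    (fun m : S => (⟨m.1, fun {a} ha => h1 m.1 m.2 a ha, h2 m.1 m.2⟩ : Nat.Partition n)) ?_
  intro a b h
  exact Subtype.ext (congrArg Nat.Partition.parts h)

lemma pl_le (n : ℕ) : pl n ≤ Fintype.card (Nat.Partition n) := by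
  rcases n with _ | _ | _ | _ | _ | n
  · exact (card_ge 0 {0} (by decide) (by decide))
  · exact (card_ge 1 {{1}} (by decide) (by decide))
  · exact le_trans (by decide) (card_ge 2 {{2}, {1, 1}} (by decide) (by decide))
  · exact le_trans (by decide) (card_ge 3 {{3}, {2, 1}, {1, 1, 1}} (by decide) (by decide))
  · exact le_trans (by decide)
      (card_ge 4 {{4}, {3, 1}, {2, 2}, {2, 1, 1}, {1, 1, 1, 1}} (by decide) (by decide))
  · exact Nat.zero_le _

lemma count51 : 51 ≤ (∑ f ∈ Finset.Nat.antidiagonalTuple 3 4,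
    ∏ i, Fintype.card (Nat.Partition (f i))) := by
  have : (∑ f ∈ Finset.Nat.antidiagonalTuple 3 4, ∏ i, pl (f i)) = 51 := by decide +kernel
  rw [← this]
  exact sum_le_sum (fun f _ => prod_le_prod' (fun i _ => pl_le _))

theorem main : S_BASE :=
  ⟨count51, s, ⟨P, inferInstance, inferInstance, inferInstance, fun x => x.n,
    { bot := rfl
      cov := fun x y h => ((cov_iff x y).1 h).1
      fin := level_finite
      deg := up_down
      pair := pair_eq }, level_card⟩, rfl, rfl, rfl, rfl, rfl⟩

end Pool.Agent.H89.DP.L.BASE
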