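import Mathlib

/-! DPO-C5: the number of partitions of 5. -/

set_option autoImplicit false

namespace Pool.Agent.H89.DP.L.C5

lemma split (s : Multiset ℕ) (h : ∀ i ∈ s, 0 < i) (n : ℕ) (hs : s.sum = n + 1) :
    ∃ (a : ℕ) (t : Multiset ℕ), s = a ::ₘ t ∧ 0 < a ∧ (∀ i ∈ t, 0 < i) ∧ a + t.sum = n + 1 := by
  have h0 : s ≠ 0 := by
    rintro rfl
    simp at hs
  obtain ⟨a, ha⟩ := Multiset.exists_mem_of_ne_zero h0
  obtain ⟨t, rfl⟩ := Multiset.exists_cons_of_mem ha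
  exact ⟨a, t, rfl, h a ha, fun i hi => h i (Multiset.mem_cons_of_mem hi), by
    rwa [Multiset.sum_cons] at hs⟩

lemma ms0 (s : Multiset ℕ) (h : ∀ i ∈ s, 0 < i) (hs : s.sum = 0) : s = 0 := by
  by_contra h0
  obtain ⟨a, ha⟩ := Multiset.exists_mem_of_ne_zero h0
  have h1 := Multiset.single_le_sum (fun x _ => Nat.zero_le x) a ha
  have h2 := h a ha
  omega

lemma ms1 (s : Multiset ℕ) (h : ∀ i ∈ s, 0 < i) (hs : s.sum = 1) : s = {1} := by
  obtain ⟨a, t, rfl, ha, ht, hat⟩ := split s h 0 hs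
  obtain rfl : a = 1 := by omega
  rw [ms0 t ht (by omega)]
  rfl

lemma ms2 (s : Multiset ℕ) (h : ∀ i ∈ s, 0 < i) (hs : s.sum = 2) : s = {2} ∨ s = {1, 1} := by
  obtain ⟨a, t, rfl, ha, ht, hat⟩ := split s h 1 hs
  have h3 : a = 1 ∨ a = 2 := by omega
  rcases h3 with rfl | rfl
  · rw [ms1 t ht (by omega)]
    decide
  · rw [ms0 t ht (by omega)]
    decide

lemma ms3 (s : Multiset ℕ) (h : ∀ i ∈ s, 0 < i) (hs : s.sum = 3) :
    s = {3} ∨ s = {2, 1} ∨ s = {1, 1, 1} := by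
  obtain ⟨a, t, rfl, ha, ht, hat⟩ := split s h 2 hs
  have h3 : a = 1 ∨ a = 2 ∨ a = 3 := by omega
  rcases h3 with rfl | rfl | rfl
  · rcases ms2 t ht (by omega) with rfl | rfl <;> decide
  · rw [ms1 t ht (by omega)]
    decide
  · rw [ms0 t ht (by omega)]
    decide

lemma ms4 (s : Multiset ℕ) (h : ∀ i ∈ s, 0 < i) (hs : s.sum = 4) :
    s = {4} ∨ s = {3, 1} ∨ s = {2, 2} ∨ s = {2, 1, 1} ∨ s = {1, 1, 1, 1} := by
  obtain ⟨a, t, rfl, ha, ht, hat⟩ := split s h 3 hs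
  have h3 : a = 1 ∨ a = 2 ∨ a = 3 ∨ a = 4 := by omega
  rcases h3 with rfl | rfl | rfl | rfl
  · rcases ms3 t ht (by omega) with rfl | rfl | rfl <;> decide
  · rcases ms2 t ht (by omega) with rfl | rfl <;> decide
  · rw [ms1 t ht (by omega)]
    decide
  · rw [ms0 t ht (by omega)]
    decide

lemma ms5 (s : Multiset ℕ) (h : ∀ i ∈ s, 0 < i) (hs : s.sum = 5) :
    s = {5} ∨ s = {4, 1} ∨ s = {3, 2} ∨ s = {3, 1, 1} ∨ s = {2, 2, 1} ∨ s = {2, 1, 1, 1} ∨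
      s = {1, 1, 1, 1, 1} := by
  obtain ⟨a, t, rfl, ha, ht, hat⟩ := split s h 4 hs
  have h3 : a = 1 ∨ a = 2 ∨ a = 3 ∨ a = 4 ∨ a = 5 := by omega
  rcases h3 with rfl | rfl | rfl | rfl | rfl
  · rcases ms4 t ht (by omega) with rfl | rfl | rfl | rfl | rfl <;> decide
  · rcases ms3 t ht (by omega) with rfl | rfl | rfl <;> decide
  · rcases ms2 t ht (by omega) with rfl | rfl <;> decide
  · rw [ms1 t ht (by omega)]
    decide
  · rw [ms0 t ht (by omega)]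
    decide

theorem card5 : Fintype.card (Nat.Partition 5) = 7 := by
  classical
  have hinj : Function.Injective (fun p : Nat.Partition 5 => p.parts) := fun p q h =>
    Nat.Partition.ext h
  have h : Finset.univ.image (fun p : Nat.Partition 5 => p.parts) =
      {({5} : Multiset ℕ), {4, 1}, {3, 2}, {3, 1, 1}, {2, 2, 1}, {2, 1, 1, 1}, {1, 1, 1, 1, 1}} := by
    ext s
    simp only [Finset.mem_image, Finset.mem_univ, true_and, Finset.mem_insert,
      Finset.mem_singleton]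
    constructor
    · rintro ⟨p, rfl⟩
      exact ms5 p.parts (fun i hi => p.parts_pos hi) p.parts_sum
    · rintro (rfl | rfl | rfl | rfl | rfl | rfl | rfl)
      · exact ⟨⟨{5}, by simp, by simp⟩, rfl⟩
      · exact ⟨⟨{4, 1}, by simp, by simp⟩, rfl⟩
      · exact ⟨⟨{3, 2}, by simp, by simp⟩, rfl⟩
      · exact ⟨⟨{3, 1, 1}, by simp, by simp⟩, rfl⟩
      · exact ⟨⟨{2, 2, 1}, by simp, by simp⟩, rfl⟩
      · exact ⟨⟨{2, 1, 1, 1}, by simp, by simp⟩, rfl⟩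
      · exact ⟨⟨{1, 1, 1, 1, 1}, by simp, by simp⟩, rfl⟩
  rw [← Finset.card_univ, ← Finset.card_image_of_injective _ hinj, h]
  decide

end Pool.Agent.H89.DP.L.C5
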