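import Pool.Agent.H89.DP.Defs

/-!
# Stub DPO-CNV: splitting tuples of partitions
-/

set_option autoImplicit false

open Finset

namespace Pool.Agent.H89.DP.L.CNV

theorem y_zero (n : ℕ) : y 0 n = if n = 0 then 1 else 0 := by
  unfold y
  rcases n with _ | n
  · rw [Finset.Nat.antidiagonalTuple_zero_zero]; simp
  · rw [Finset.Nat.antidiagonalTuple_zero_succ]; simp

theorem y_succ (k n : ℕ) : y (k + 1) n =
    ∑ ij ∈ Finset.HasAntidiagonal.antidiagonal n, Fintype.card (Nat.Partition ij.1) * y k ij.2 := by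
  unfold y
  simp_rw [Finset.mul_sum]
  rw [Finset.sum_sigma']
  symm
  refine Finset.sum_bij' (fun z _ => (Fin.cons z.1.1 z.2 : Fin (k + 1) → ℕ))
    (fun f _ => (⟨(f 0, ∑ i, Fin.tail f i), Fin.tail f⟩ : Sigma fun _ : ℕ × ℕ => (Fin k → ℕ))) ?_ ?_ ?_ ?_ ?_
  · intro z hz
    rw [Finset.mem_sigma, Finset.HasAntidiagonal.mem_antidiagonal, Finset.Nat.mem_antidiagonalTuple] at hz
    rw [Finset.Nat.mem_antidiagonalTuple, Fin.sum_univ_succ]
    simp only [Fin.cons_zero, Fin.cons_succ]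
    rw [hz.2, hz.1]
  · intro f hf
    rw [Finset.Nat.mem_antidiagonalTuple, Fin.sum_univ_succ] at hf
    rw [Finset.mem_sigma, Finset.HasAntidiagonal.mem_antidiagonal, Finset.Nat.mem_antidiagonalTuple]
    exact ⟨hf, rfl⟩
  · intro z hz
    rw [Finset.mem_sigma, Finset.HasAntidiagonal.mem_antidiagonal, Finset.Nat.mem_antidiagonalTuple] at hz
    obtain ⟨⟨a, b⟩, g⟩ := z
    obtain ⟨h1, h2⟩ := hz
    simp only [Fin.cons_zero, Fin.tail_cons] at h2 ⊢
    rw [h2]
  · intro f _
    simp only [Fin.cons_self_tail]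
  · intro z _
    rw [Fin.prod_univ_succ]
    simp only [Fin.cons_zero, Fin.cons_succ]

theorem y_coeff (r n : ℕ) : PowerSeries.coeff n ((PowerSeries.mk fun k => Fintype.card (Nat.Partition k)) ^ r) = y r n := by
  induction r generalizing n with
  | zero => rw [pow_zero, PowerSeries.coeff_one, y_zero]
  | succ r ih =>
    rw [pow_succ', PowerSeries.coeff_mul, y_succ]
    refine Finset.sum_congr rfl fun ij _ => ?_
    rw [PowerSeries.coeff_mk, ih]

theorem main : S_CNV := by
  intro r s n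
  rw [← y_coeff, pow_add, PowerSeries.coeff_mul]
  refine Finset.sum_congr rfl fun ij _ => ?_
  rw [y_coeff, y_coeff]

end Pool.Agent.H89.DP.L.CNV
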