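import Pool.Agent.H89.DP.Defs

/-!
# Ranks 0, 1 and 2 of a differential poset
-/

set_option autoImplicit false

open Classical Finset

namespace Pool.Agent.H89.DP.L.FA

section

variable {r : ℕ} {P : Type} [PartialOrder P] [OrderBot P] [LocallyFiniteOrder P] {ρ : P → ℕ}

/-- elements other than the least one cover something -/
lemma exists_cov {z : P} (hz : z ≠ ⊥) : ∃ w, w ⋖ z := by
  obtain ⟨w, _, hw⟩ := exists_le_covBy_of_lt (bot_lt_iff_ne_bot.mpr hz)
  exact ⟨w, hw⟩

variable (h : IsDiff r P ρ)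

include h

lemma rank_zero_iff {z : P} : ρ z = 0 ↔ z = ⊥ := by
  constructor
  · intro hz
    by_contra hne
    obtain ⟨w, hw⟩ := exists_cov hne
    have := h.cov w z hw
    omega
  · rintro rfl
    exact h.bot

lemma cov_bot_iff {z : P} : ⊥ ⋖ z ↔ ρ z = 1 := by
  constructor
  · intro hz
    rw [h.cov _ _ hz, h.bot]
  · intro hz
    have hne : z ≠ ⊥ := fun e => by
      rw [e, h.bot] at hz
      omega
    obtain ⟨w, hw⟩ := exists_cov hne
    have h1 := h.cov w z hw
    have h2 : w = ⊥ := (rank_zero_iff h).mp (by omega)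
    rwa [h2] at hw

lemma down_fin (z : P) : {w : P | w ⋖ z}.Finite := by
  refine (h.fin (ρ z - 1)).subset fun w hw => ?_
  have h1 := h.cov w z hw
  change ρ w = ρ z - 1
  omega

/-- the elements of rank `n` -/
noncomputable def R (n : ℕ) : Finset P := (h.fin n).toFinset

/-- the elements covered by `z` -/
noncomputable def Lo (z : P) : Finset P := (down_fin h z).toFinset

/-- the elements which cover `z` -/
noncomputable def Up (z : P) : Finset P := (h.deg z).1.toFinset


lemma mem_R {n : ℕ} {z : P} : z ∈ R h n ↔ ρ z = n := by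
  simp [R]

lemma mem_Lo {z w : P} : w ∈ Lo h z ↔ w ⋖ z := by
  simp [Lo]

lemma mem_Up {z w : P} : w ∈ Up h z ↔ z ⋖ w := by
  simp [Up]

lemma card_Lo (z : P) : (Lo h z).card = dn z :=
  (Set.ncard_eq_toFinset_card _ (down_fin h z)).symm

lemma card_Up (z : P) : (Up h z).card = dn z + r := by
  have h1 := (h.deg z).2
  rw [Set.ncard_eq_toFinset_card _ (h.deg z).1] at h1
  exact h1

lemma dn_pos {z : P} (hz : 1 ≤ ρ z) : 1 ≤ dn z := by
  have hne : z ≠ ⊥ := fun e => by
    rw [e, h.bot] at hz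
    omega
  obtain ⟨w, hw⟩ := exists_cov hne
  rw [← card_Lo h]
  exact Finset.card_pos.mpr ⟨w, (mem_Lo h).mpr hw⟩

lemma Lo_one {x : P} (hx : ρ x = 1) : Lo h x = {⊥} := by
  ext w
  rw [mem_Lo, Finset.mem_singleton]
  constructor
  · intro hw
    have h1 := h.cov w x hw
    exact (rank_zero_iff h).mp (by omega)
  · rintro rfl
    exact (cov_bot_iff h).mpr hx

lemma dn_one {x : P} (hx : ρ x = 1) : dn x = 1 := by
  rw [← card_Lo h, Lo_one h hx, Finset.card_singleton]

lemma dn_bot : dn (⊥ : P) = 0 := by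
  rw [← card_Lo h, Finset.card_eq_zero, Finset.eq_empty_iff_forall_notMem]
  intro w hw
  rw [mem_Lo] at hw
  exact not_lt_bot hw.lt

lemma R_one : R h 1 = Up h ⊥ := by
  ext z
  rw [mem_R, mem_Up, cov_bot_iff h]

lemma card_R_one : (R h 1).card = r := by
  rw [R_one, card_Up, dn_bot h, zero_add]

/-- common covers, as finite sets -/
lemma pair_card {x y : P} (hxy : x ≠ y) :
    ((Lo h x).filter (fun z => z ⋖ y)).card = ((Up h x).filter (fun z => y ⋖ z)).card := by
  have h1 := h.pair x y hxy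
  have e1 : {z : P | z ⋖ x ∧ z ⋖ y} = ((Lo h x).filter (fun z => z ⋖ y) : Finset P) := by
    ext z
    simp [mem_Lo]
  have e2 : {z : P | x ⋖ z ∧ y ⋖ z} = ((Up h x).filter (fun z => y ⋖ z) : Finset P) := by
    ext z
    simp [mem_Up]
  rwa [e1, e2, Set.ncard_coe_finset, Set.ncard_coe_finset] at h1

lemma sum_dn_two : ∑ z ∈ R h 2, dn z = r * (r + 1) := by
  have h1 := Finset.sum_card_bipartiteAbove_eq_sum_card_bipartiteBelow (s := R h 2) (t := R h 1)
    (fun z x => x ⋖ z)
  have h2 : ∀ z ∈ R h 2, ((R h 1).bipartiteAbove (fun z x => x ⋖ z) z).card = dn z := by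
    intro z hz
    rw [← card_Lo h]
    congr 1
    ext x
    rw [Finset.mem_bipartiteAbove, mem_R, mem_Lo]
    refine ⟨fun hx => hx.2, fun hx => ⟨?_, hx⟩⟩
    have := h.cov x z hx
    rw [mem_R] at hz
    omega
  have h3 : ∀ x ∈ R h 1, ((R h 2).bipartiteBelow (fun z x => x ⋖ z) x).card = r + 1 := by
    intro x hx
    rw [mem_R] at hx
    have h4 : (R h 2).bipartiteBelow (fun z x => x ⋖ z) x = Up h x := by
      ext z
      rw [Finset.mem_bipartiteBelow, mem_R, mem_Up]
      refine ⟨fun hz => hz.2, fun hz => ⟨?_, hz⟩⟩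
      rw [h.cov x z hz, hx]
    rw [h4, card_Up, dn_one h hx, add_comm]
  rw [Finset.sum_congr rfl h2, Finset.sum_congr rfl h3, Finset.sum_const, card_R_one,
    smul_eq_mul] at h1
  exact h1

lemma sum_pairs_two : ∑ z ∈ R h 2, dn z * (dn z - 1) = r * (r - 1) := by
  have h1 := Finset.sum_card_bipartiteAbove_eq_sum_card_bipartiteBelow (s := R h 2)
    (t := (R h 1).offDiag) (fun z p => p.1 ⋖ z ∧ p.2 ⋖ z)
  have h2 : ∀ z ∈ R h 2,
      (((R h 1).offDiag).bipartiteAbove (fun z p => p.1 ⋖ z ∧ p.2 ⋖ z) z).card =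
        dn z * (dn z - 1) := by
    intro z hz
    rw [mem_R] at hz
    have h4 : ((R h 1).offDiag).bipartiteAbove (fun z p => p.1 ⋖ z ∧ p.2 ⋖ z) z =
        (Lo h z).offDiag := by
      ext p
      rw [Finset.mem_bipartiteAbove, Finset.mem_offDiag, Finset.mem_offDiag, mem_R, mem_R, mem_Lo,
        mem_Lo]
      constructor
      · rintro ⟨⟨_, _, a⟩, b, c⟩
        exact ⟨b, c, a⟩
      · rintro ⟨b, c, a⟩
        have e1 := h.cov _ _ b
        have e2 := h.cov _ _ c
        exact ⟨⟨by omega, by omega, a⟩, b, c⟩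
    rw [h4, Finset.offDiag_card, card_Lo, Nat.mul_sub, mul_one]
  have h3 : ∀ p ∈ (R h 1).offDiag,
      ((R h 2).bipartiteBelow (fun z p => p.1 ⋖ z ∧ p.2 ⋖ z) p).card = 1 := by
    intro p hp
    rw [Finset.mem_offDiag, mem_R, mem_R] at hp
    obtain ⟨hp1, hp2, hp3⟩ := hp
    have h4 : (R h 2).bipartiteBelow (fun z p => p.1 ⋖ z ∧ p.2 ⋖ z) p =
        (Up h p.1).filter (fun z => p.2 ⋖ z) := by
      ext z
      rw [Finset.mem_bipartiteBelow, mem_R, Finset.mem_filter, mem_Up]
      refine ⟨fun hz => hz.2, fun hz => ⟨?_, hz⟩⟩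
      rw [h.cov _ _ hz.1, hp1]
    have h5 : (Lo h p.1).filter (fun z => z ⋖ p.2) = {⊥} := by
      rw [Lo_one h hp1, Finset.filter_singleton, if_pos ((cov_bot_iff h).mpr hp2)]
    rw [h4, ← pair_card h hp3, h5, Finset.card_singleton]
  rw [Finset.sum_congr rfl h2, Finset.sum_congr rfl h3, Finset.sum_const, Finset.offDiag_card,
    card_R_one, smul_eq_mul, mul_one] at h1
  rw [h1, Nat.mul_sub, mul_one]

end

theorem main : S_FA := by
  intro r P _ _ _ ρ h
  refine ⟨?_, ?_, fun z hz => dn_pos h hz, sum_dn_two h, sum_pairs_two h⟩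
  · have h1 : {x : P | ρ x = 0} = {⊥} := by
      ext z
      rw [Set.mem_setOf_eq, rank_zero_iff h, Set.mem_singleton_iff]
    rw [h1, Set.ncard_singleton]
  · rw [Set.ncard_eq_toFinset_card _ (h.fin 1)]
    exact card_R_one h

end Pool.Agent.H89.DP.L.FA
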