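import Pool.Agent.H89.DP.L.FA

/-!
# Ranks 2 and 3 of a differential poset
-/

set_option autoImplicit false

open Classical Finset

namespace Pool.Agent.H89.DP.L.FB

open Pool.Agent.H89.DP.L.FA

variable {r : ℕ} {P : Type} [PartialOrder P] [OrderBot P] [LocallyFiniteOrder P] {ρ : P → ℕ}
  (h : IsDiff r P ρ)

include h

lemma sum_up {z : P} (hz : ρ z = 2) : ∑ w ∈ Up h z, (dn w - 1) = dn z * r := by
  have h1 := Finset.sum_card_bipartiteAbove_eq_sum_card_bipartiteBelow (s := Up h z)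
    (t := (R h 2).erase z) (fun w z' => z' ⋖ w)
  have h2 := Finset.sum_card_bipartiteAbove_eq_sum_card_bipartiteBelow (s := Lo h z)
    (t := (R h 2).erase z) (fun x z' => x ⋖ z')
  have a1 : ∀ w ∈ Up h z, (((R h 2).erase z).bipartiteAbove (fun w z' => z' ⋖ w) w).card =
      dn w - 1 := by
    intro w hw
    rw [mem_Up] at hw
    have h4 : ((R h 2).erase z).bipartiteAbove (fun w z' => z' ⋖ w) w = (Lo h w).erase z := by
      ext z'
      rw [Finset.mem_bipartiteAbove, Finset.mem_erase, Finset.mem_erase, mem_R, mem_Lo]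
      constructor
      · rintro ⟨⟨a, _⟩, b⟩
        exact ⟨a, b⟩
      · rintro ⟨a, b⟩
        have e1 := h.cov _ _ b
        have e2 := h.cov _ _ hw
        exact ⟨⟨a, by omega⟩, b⟩
    rw [h4, Finset.card_erase_of_mem ((mem_Lo h).mpr hw), card_Lo]
  have a2 : ∀ x ∈ Lo h z, (((R h 2).erase z).bipartiteAbove (fun x z' => x ⋖ z') x).card = r := by
    intro x hx
    rw [mem_Lo] at hx
    have hx1 : ρ x = 1 := by
      have := h.cov _ _ hx
      omega
    have h4 : ((R h 2).erase z).bipartiteAbove (fun x z' => x ⋖ z') x = (Up h x).erase z := by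
      ext z'
      rw [Finset.mem_bipartiteAbove, Finset.mem_erase, Finset.mem_erase, mem_R, mem_Up]
      constructor
      · rintro ⟨⟨a, _⟩, b⟩
        exact ⟨a, b⟩
      · rintro ⟨a, b⟩
        have e1 := h.cov _ _ b
        exact ⟨⟨a, by omega⟩, b⟩
    rw [h4, Finset.card_erase_of_mem ((mem_Up h).mpr hx), card_Up, dn_one h hx1]
    omega
  have a3 : ∀ z' ∈ (R h 2).erase z, ((Up h z).bipartiteBelow (fun w z' => z' ⋖ w) z').card =
      ((Lo h z).bipartiteBelow (fun x z' => x ⋖ z') z').card := by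
    intro z' hz'
    have hne : z ≠ z' := (Finset.mem_erase.mp hz').1.symm
    exact (pair_card h hne).symm
  rw [Finset.sum_congr rfl a1, Finset.sum_congr rfl a3] at h1
  rw [Finset.sum_congr rfl a2, Finset.sum_const, card_Lo, smul_eq_mul] at h2
  rw [h1, ← h2]

lemma sum_three : ((R h 3).card : ℚ) =
    ∑ z ∈ R h 2, ∑ w ∈ Up h z, 1 / (dn w : ℚ) := by
  have h1 : ∑ z ∈ R h 2, ∑ w ∈ Up h z, 1 / (dn w : ℚ) =
      ∑ w ∈ R h 3, ∑ _z ∈ Lo h w, 1 / (dn w : ℚ) := by
    refine Finset.sum_comm' fun z w => ?_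
    rw [mem_R, mem_R, mem_Up, mem_Lo]
    constructor
    · rintro ⟨a, b⟩
      refine ⟨b, ?_⟩
      rw [h.cov _ _ b, a]
    · rintro ⟨b, a⟩
      have := h.cov _ _ b
      exact ⟨by omega, b⟩
  rw [h1]
  have h2 : ∀ w ∈ R h 3, ∑ _z ∈ Lo h w, 1 / (dn w : ℚ) = 1 := by
    intro w hw
    rw [mem_R] at hw
    have h3 : 1 ≤ dn w := dn_pos h (by omega)
    have h4 : (dn w : ℚ) ≠ 0 := by
      have : (0 : ℚ) < dn w := by exact_mod_cast h3
      exact this.ne'
    rw [Finset.sum_const, card_Lo, nsmul_eq_mul]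
    field_simp
  rw [Finset.sum_congr rfl h2, Finset.sum_const, nsmul_eq_mul, mul_one]

end Pool.Agent.H89.DP.L.FB

namespace Pool.Agent.H89.DP.L.FB

open Pool.Agent.H89.DP.L.FA

theorem main : S_FB := by
  intro _ r P _ _ _ ρ h
  refine ⟨fun z hz => sum_up h hz, ?_⟩
  rw [Set.ncard_eq_toFinset_card _ (h.fin 3)]
  exact sum_three h

end Pool.Agent.H89.DP.L.FB
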