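import Pool.Agent.H89.DP.Defs2

/-! # DPO-G1 (helper1) -/

set_option autoImplicit false

namespace Pool.Agent.H89.DP.L.G1

open Pool.Agent.H89.DP Finset

theorem main : S_G1 := by
  classical
  intro r P _ _ _ ρ h
  have hfin : ∀ z : P, {x : P | x ⋖ z}.Finite := fun z =>
    (Finset.Icc ⊥ z).finite_toSet.subset (fun x hx => by
      have hx' : x ⋖ z := hx
      rw [Finset.mem_coe, Finset.mem_Icc]
      exact ⟨bot_le, hx'.le⟩)
  refine ⟨hfin, fun z f => ?_⟩
  obtain ⟨Dn, hDn⟩ : ∃ Dn : P → Finset P, ∀ w, Dn w = (hfin w).toFinset := ⟨_, fun _ => rfl⟩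
  obtain ⟨Up, hUp⟩ : ∃ Up : P → Finset P, ∀ w, Up w = (h.deg w).1.toFinset := ⟨_, fun _ => rfl⟩
  have mD : ∀ w x, x ∈ Dn w ↔ x ⋖ w := by
    intro w x
    rw [hDn, Set.Finite.mem_toFinset]
    exact Iff.rfl
  have mU : ∀ w x, x ∈ Up w ↔ w ⋖ x := by
    intro w x
    rw [hUp, Set.Finite.mem_toFinset]
    exact Iff.rfl
  have cD : ∀ w, dn w = (Dn w).card := by
    intro w
    rw [hDn]
    exact Set.ncard_eq_toFinset_card _ (hfin w)
  have cU : ∀ w, (Up w).card = dn w + r := by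
    intro w
    rw [hUp, ← Set.ncard_eq_toFinset_card _ (h.deg w).1]
    exact (h.deg w).2
  have hf : f.toFinset = Dn z := by
    rw [hDn]
  rw [hf, ← hUp z]
  obtain ⟨U, hU⟩ : ∃ U : Finset P, U = ((Up z).biUnion Dn ∪ (Dn z).biUnion Up).erase z :=
    ⟨_, rfl⟩
  have e1 : ∀ w ∈ Up z, ((dn w : ℤ) - 1) = ((U.filter (fun z' => z' ⋖ w)).card : ℤ) := by
    intro w hw
    have h1 : U.filter (fun z' => z' ⋖ w) = (Dn w).erase z := by
      ext z'
      rw [hU, mem_filter, mem_erase, mem_erase, mD, mem_union, mem_biUnion]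
      constructor
      · rintro ⟨⟨h2, _⟩, h3⟩
        exact ⟨h2, h3⟩
      · rintro ⟨h2, h3⟩
        exact ⟨⟨h2, Or.inl ⟨w, hw, (mD w z').2 h3⟩⟩, h3⟩
    have h2 : z ∈ Dn w := (mD w z).2 ((mU z w).1 hw)
    rw [h1, cD, Finset.card_erase_of_mem h2]
    have h3 : 1 ≤ (Dn w).card := Finset.card_pos.2 ⟨z, h2⟩
    rw [Nat.cast_sub h3, Nat.cast_one]
  have e2 : ∀ x ∈ Dn z, ((dn x : ℤ) + r - 1) = ((U.filter (fun z' => x ⋖ z')).card : ℤ) := by
    intro x hx
    have h1 : U.filter (fun z' => x ⋖ z') = (Up x).erase z := by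
      ext z'
      rw [hU, mem_filter, mem_erase, mem_erase, mU, mem_union, mem_biUnion, mem_biUnion]
      constructor
      · rintro ⟨⟨h2, _⟩, h3⟩
        exact ⟨h2, h3⟩
      · rintro ⟨h2, h3⟩
        exact ⟨⟨h2, Or.inr ⟨x, hx, (mU x z').2 h3⟩⟩, h3⟩
    have h2 : z ∈ Up x := (mU x z).2 ((mD z x).1 hx)
    rw [h1, Finset.card_erase_of_mem h2]
    have h3 : 1 ≤ (Up x).card := Finset.card_pos.2 ⟨z, h2⟩
    rw [Nat.cast_sub h3, cU]
    push_cast
    ring
  have key : ∑ w ∈ Up z, (U.filter (fun z' => z' ⋖ w)).card =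
      ∑ x ∈ Dn z, (U.filter (fun z' => x ⋖ z')).card := by
    have h1 := Finset.sum_card_bipartiteAbove_eq_sum_card_bipartiteBelow (s := Up z) (t := U)
      (fun w z' => z' ⋖ w)
    have h2 := Finset.sum_card_bipartiteAbove_eq_sum_card_bipartiteBelow (s := Dn z) (t := U)
      (fun x z' => x ⋖ z')
    unfold Finset.bipartiteAbove Finset.bipartiteBelow at h1 h2
    rw [h1, h2]
    refine sum_congr rfl fun z' hz' => ?_
    have hne : z ≠ z' := by
      rw [hU] at hz'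
      exact (Finset.mem_erase.1 hz').1.symm
    have h3 := h.pair z z' hne
    have h4 : {w : P | z ⋖ w ∧ z' ⋖ w} = ((Up z).filter (fun w => z' ⋖ w) : Set P) := by
      ext w
      rw [Finset.mem_coe, mem_filter, mU]
      exact Iff.rfl
    have h5 : {x : P | x ⋖ z ∧ x ⋖ z'} = ((Dn z).filter (fun x => x ⋖ z') : Set P) := by
      ext w
      rw [Finset.mem_coe, mem_filter, mD]
      exact Iff.rfl
    rw [h4, h5, Set.ncard_coe_finset, Set.ncard_coe_finset] at h3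
    exact h3.symm
  rw [sum_congr rfl e1, sum_congr rfl e2, ← Nat.cast_sum, ← Nat.cast_sum, key]

end Pool.Agent.H89.DP.L.G1
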