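import Pool.Agent.H89.DP.Defs2

/-!
# Sums over the covering pairs between two consecutive ranks
-/

set_option autoImplicit false

open Classical Finset

namespace Pool.Agent.H89.DP.L.G2

theorem main : S_G2 := by
  intro r P _ _ _ ρ h n F f
  refine Finset.sum_comm' fun z x => ?_
  rw [Set.Finite.mem_toFinset, Set.Finite.mem_toFinset, Set.Finite.mem_toFinset,
    Set.Finite.mem_toFinset]
  change ρ z = n + 1 ∧ x ⋖ z ↔ x ⋖ z ∧ ρ x = n
  constructor
  · rintro ⟨a, b⟩
    have := h.cov _ _ b
    exact ⟨b, by omega⟩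
  · rintro ⟨b, a⟩
    have := h.cov _ _ b
    exact ⟨by omega, b⟩

end Pool.Agent.H89.DP.L.G2
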