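import Pool.Agent.H89.DP.Defs

/-! # DPO-GRW (helper63): growth of the rank sizes -/

set_option autoImplicit false

namespace Pool.Agent.H89.DP.L.GRW

open Pool.Agent.H89.DP

/-- adding a part `1` -/
lemma part_mono (n : ℕ) : Fintype.card (Nat.Partition n) ≤ Fintype.card (Nat.Partition (n + 1)) := by
  let F : Nat.Partition n → Nat.Partition (n + 1) := fun P =>
    { parts := 1 ::ₘ P.parts
      parts_pos := by
        intro i hi
        rcases Multiset.mem_cons.1 hi with h | h
        · omega
        · exact P.parts_pos h
      parts_sum := by rw [Multiset.sum_cons, P.parts_sum, add_comm] }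
  refine Fintype.card_le_of_injective F ?_
  intro P Q h
  have h1 : (1 : ℕ) ::ₘ P.parts = 1 ::ₘ Q.parts := congrArg Nat.Partition.parts h
  exact Nat.Partition.ext ((Multiset.cons_inj_right 1).1 h1)

theorem main : S_GRW := by
  classical
  intro r m
  obtain ⟨W, hW⟩ : ∃ W : (Fin r → ℕ) → ℕ, W = fun f => ∏ i, Fintype.card (Nat.Partition (f i)) :=
    ⟨_, rfl⟩
  have hy : ∀ n, y r n = ∑ f ∈ Finset.Nat.antidiagonalTuple r n, W f := by
    intro n; rw [hW]; rfl
  have h1 : ∀ i : Fin r, y r m ≤
      ∑ g ∈ Finset.Nat.antidiagonalTuple r (m + 1), if 1 ≤ g i then W g else 0 := by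
    intro i
    obtain ⟨φ, hφ⟩ : ∃ φ : (Fin r → ℕ) → (Fin r → ℕ), φ = fun f => Function.update f i (f i + 1) :=
      ⟨_, rfl⟩
    have hφi : Function.Injective φ := by
      intro f g hfg
      rw [hφ] at hfg
      simp only at hfg
      funext j
      have h2 := congrFun hfg j
      by_cases hj : j = i
      · subst hj
        rw [Function.update_self, Function.update_self] at h2
        omega
      · rwa [Function.update_of_ne hj, Function.update_of_ne hj] at h2
    have hWφ : ∀ f, W f ≤ W (φ f) := by
      intro f
      rw [hW]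
      refine Finset.prod_le_prod' fun j _ => ?_
      rw [hφ]
      by_cases hj : j = i
      · subst hj
        simp only [Function.update_self]
        exact part_mono _
      · simp only [Function.update_of_ne hj]
        exact le_refl _
    rw [hy m, ← Finset.sum_filter]
    calc ∑ f ∈ Finset.Nat.antidiagonalTuple r m, W f ≤
        ∑ f ∈ Finset.Nat.antidiagonalTuple r m, W (φ f) := Finset.sum_le_sum fun f _ => hWφ f
      _ = ∑ g ∈ (Finset.Nat.antidiagonalTuple r m).image φ, W g :=
          (Finset.sum_image (fun _ _ _ _ h => hφi h)).symm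
      _ ≤ _ := by
          refine Finset.sum_le_sum_of_subset fun g hg => ?_
          rw [Finset.mem_image] at hg
          obtain ⟨f, hf, rfl⟩ := hg
          rw [Finset.Nat.mem_antidiagonalTuple] at hf
          rw [Finset.mem_filter, Finset.Nat.mem_antidiagonalTuple, hφ]
          simp only [Function.update_self]
          refine ⟨?_, by omega⟩
          rw [Finset.sum_update_of_mem (Finset.mem_univ i), ← hf,
            ← Finset.add_sum_erase Finset.univ f (Finset.mem_univ i), Finset.erase_eq]
          ring
  calc r * y r m = ∑ _i : Fin r, y r m := by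
        rw [Finset.sum_const, Finset.card_univ, Fintype.card_fin, smul_eq_mul]
    _ ≤ ∑ i : Fin r, ∑ g ∈ Finset.Nat.antidiagonalTuple r (m + 1), if 1 ≤ g i then W g else 0 :=
        Finset.sum_le_sum fun i _ => h1 i
    _ = ∑ g ∈ Finset.Nat.antidiagonalTuple r (m + 1), ∑ i : Fin r, if 1 ≤ g i then W g else 0 :=
        Finset.sum_comm
    _ ≤ ∑ g ∈ Finset.Nat.antidiagonalTuple r (m + 1), (m + 1) * W g := by
        refine Finset.sum_le_sum fun g hg => ?_
        rw [Finset.Nat.mem_antidiagonalTuple] at hg
        rw [← hg, Finset.sum_mul]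
        refine Finset.sum_le_sum fun i _ => ?_
        split_ifs with h
        · exact Nat.le_mul_of_pos_left _ h
        · exact Nat.zero_le _
    _ = (m + 1) * y r (m + 1) := by rw [hy (m + 1), Finset.mul_sum]

end Pool.Agent.H89.DP.L.GRW
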