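import Pool.Agent.H89.DP.Defs3

/-!
# Stub DPO-INJ: the ranks of a differential poset increase
-/

set_option autoImplicit false

open Finset

namespace Pool.Agent.H89.DP.L.INJ

open Classical in
/-- the incidence number of the covering relation -/
noncomputable def a {P : Type} [PartialOrder P] (x z : P) : ℚ := if x ⋖ z then 1 else 0

theorem up_sum {P : Type} [PartialOrder P] (B : Finset P) (x x' : P) (hB : ∀ z, x ⋖ z → z ∈ B) :
    ∑ z ∈ B, a x z * a x' z = ({z : P | x ⋖ z ∧ x' ⋖ z}.ncard : ℚ) := by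
  classical
  have h1 : {z : P | x ⋖ z ∧ x' ⋖ z} = ↑(B.filter fun z => x ⋖ z ∧ x' ⋖ z) := by
    ext z
    simp only [Set.mem_ofPred_eq, coe_filter]
    exact ⟨fun h => ⟨hB z h.1, h⟩, fun h => h.2⟩
  rw [h1, Set.ncard_coe_finset, card_filter, Nat.cast_sum]
  refine sum_congr rfl fun z _ => ?_
  unfold a
  by_cases h2 : x ⋖ z <;> by_cases h3 : x' ⋖ z <;> simp [h2, h3]

theorem dn_sum {P : Type} [PartialOrder P] (C : Finset P) (x x' : P) (hC : ∀ z, z ⋖ x → z ∈ C) :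
    ∑ z ∈ C, a z x * a z x' = ({z : P | z ⋖ x ∧ z ⋖ x'}.ncard : ℚ) := by
  classical
  have h1 : {z : P | z ⋖ x ∧ z ⋖ x'} = ↑(C.filter fun z => z ⋖ x ∧ z ⋖ x') := by
    ext z
    simp only [Set.mem_ofPred_eq, coe_filter]
    exact ⟨fun h => ⟨hC z h.1, h⟩, fun h => h.2⟩
  rw [h1, Set.ncard_coe_finset, card_filter, Nat.cast_sum]
  refine sum_congr rfl fun z _ => ?_
  unfold a
  by_cases h2 : z ⋖ x <;> by_cases h3 : z ⋖ x' <;> simp [h2, h3]

theorem key {r : ℕ} {P : Type} [PartialOrder P] [OrderBot P] [LocallyFiniteOrder P] {ρ : P → ℕ} (h : IsDiff r P ρ)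
    {B C : Finset P} {x x' : P} (hB : ∀ z, x ⋖ z → z ∈ B) (hC : ∀ z, z ⋖ x → z ∈ C) [Decidable (x = x')] :
    ∑ z ∈ B, a x z * a x' z = ∑ z ∈ C, a z x * a z x' + if x = x' then (r : ℚ) else 0 := by
  rw [up_sum B x x' hB, dn_sum C x x' hC]
  by_cases hx : x = x'
  · subst hx
    rw [if_pos rfl]
    simp only [and_self]
    rw [(h.deg x).2]
    push_cast
    rfl
  · rw [if_neg hx, add_zero, h.pair x x' hx]

theorem sq_sum {X Z : Type} (A : Finset X) (B : Finset Z) (v : X → ℚ) (w : X → Z → ℚ) :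
    ∑ z ∈ B, (∑ x ∈ A, v x * w x z) ^ 2 = ∑ x ∈ A, ∑ x' ∈ A, v x * v x' * ∑ z ∈ B, w x z * w x' z := by
  have h1 : ∀ z ∈ B, (∑ x ∈ A, v x * w x z) ^ 2 = ∑ x ∈ A, ∑ x' ∈ A, v x * v x' * (w x z * w x' z) := by
    intro z _
    rw [pow_two, sum_mul_sum]
    refine sum_congr rfl fun x _ => sum_congr rfl fun x' _ => by ring
  rw [sum_congr rfl h1, sum_comm]
  refine sum_congr rfl fun x _ => ?_
  rw [sum_comm]
  refine sum_congr rfl fun x' _ => ?_
  rw [mul_sum]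

theorem main : S_INJ := by
  classical
  intro r P _ _ _ ρ hr h m
  obtain ⟨A, hA⟩ : ∃ A : Finset P, A = (h.fin m).toFinset := ⟨_, rfl⟩
  obtain ⟨B, hB⟩ : ∃ B : Finset P, B = (h.fin (m + 1)).toFinset := ⟨_, rfl⟩
  obtain ⟨C, hC⟩ : ∃ C : Finset P, C = (h.fin (m - 1)).toFinset := ⟨_, rfl⟩
  have mA : ∀ x, x ∈ A ↔ ρ x = m := fun x => by rw [hA, Set.Finite.mem_toFinset]; rfl
  have mB : ∀ x, x ∈ B ↔ ρ x = m + 1 := fun x => by rw [hB, Set.Finite.mem_toFinset]; rfl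
  have mC : ∀ x, x ∈ C ↔ ρ x = m - 1 := fun x => by rw [hC, Set.Finite.mem_toFinset]; rfl
  rw [Set.ncard_eq_toFinset_card _ (h.fin m), Set.ncard_eq_toFinset_card _ (h.fin (m + 1)), ← hA, ← hB]
  have main1 : ∀ v : P → ℚ, ∑ z ∈ B, (∑ x ∈ A, v x * a x z) ^ 2 =
      ∑ y ∈ C, (∑ x ∈ A, v x * a y x) ^ 2 + r * ∑ x ∈ A, v x ^ 2 := by
    intro v
    rw [sq_sum A B v a, sq_sum A C v (fun x y => a y x), mul_sum, ← sum_add_distrib]
    refine sum_congr rfl fun x hx => ?_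
    have hx1 := (mA x).1 hx
    have h1 : ∀ x' ∈ A, v x * v x' * ∑ z ∈ B, a x z * a x' z =
        v x * v x' * ∑ y ∈ C, a y x * a y x' + if x = x' then r * v x ^ 2 else 0 := by
      intro x' _
      rw [key h (B := B) (C := C) (fun z hz => (mB z).2 (by rw [h.cov x z hz, hx1]))
        (fun z hz => (mC z).2 (by have := h.cov z x hz; omega))]
      by_cases hxx : x = x'
      · subst hxx
        rw [if_pos rfl, if_pos rfl]
        ring
      · rw [if_neg hxx, if_neg hxx]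
        ring
    rw [sum_congr rfl h1, sum_add_distrib, sum_ite_eq, if_pos hx]
  have main2 : ∀ v : P → ℚ, (∀ z ∈ B, ∑ x ∈ A, v x * a x z = 0) → ∀ x ∈ A, v x = 0 := by
    intro v hv x hx
    have h1 := main1 v
    rw [sum_eq_zero (fun z hz => by rw [hv z hz]; ring)] at h1
    have h2 : 0 ≤ ∑ y ∈ C, (∑ x ∈ A, v x * a y x) ^ 2 := sum_nonneg fun y _ => sq_nonneg _
    have h3 : 0 ≤ ∑ x ∈ A, v x ^ 2 := sum_nonneg fun y _ => sq_nonneg _
    have hr' : (1 : ℚ) ≤ r := by exact_mod_cast hr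
    have h4 : ∑ x ∈ A, v x ^ 2 = 0 := by nlinarith
    rw [sum_eq_zero_iff_of_nonneg fun y _ => sq_nonneg _] at h4
    exact pow_eq_zero_iff (two_ne_zero) |>.1 (h4 x hx)
  let M : Matrix ↥B ↥A ℚ := Matrix.of fun z x => a x.1 z.1
  have hinj : Function.Injective (Matrix.mulVecLin M) := by
    rw [← LinearMap.ker_eq_bot, LinearMap.ker_eq_bot']
    intro v hv
    have h1 : ∀ z ∈ B, ∑ x ∈ A, (if hx : x ∈ A then v ⟨x, hx⟩ else 0) * a x z = 0 := by
      intro z hz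
      have h2 := congrFun hv ⟨z, hz⟩
      rw [Matrix.mulVecLin_apply] at h2
      rw [← sum_coe_sort A (fun x => (if hx : x ∈ A then v ⟨x, hx⟩ else 0) * a x z)]
      refine Eq.trans (sum_congr rfl fun x _ => ?_) h2
      show (if hx : x.1 ∈ A then v ⟨x.1, hx⟩ else 0) * a x.1 z = a x.1 z * v x
      rw [dif_pos x.2, mul_comm]
    have h3 := main2 _ h1
    funext x
    have h4 := h3 x.1 x.2
    rw [dif_pos x.2] at h4
    exact h4
  have hf := LinearMap.finrank_le_finrank_of_injective hinj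
  rw [Module.finrank_fintype_fun_eq_card, Module.finrank_fintype_fun_eq_card, Fintype.card_coe, Fintype.card_coe] at hf
  exact hf

end Pool.Agent.H89.DP.L.INJ
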