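import Pool.Agent.H89.DP.Defs3

/-! # DPO-MOM: moments of the numbers of lower covers -/

set_option autoImplicit false

namespace Pool.Agent.H89.DP.L.MOM

open Pool.Agent.H89.DP Finset

theorem main : S_MOM := by
  intro hFA hG1 hG2 r P _ _ _ ρ h
  obtain ⟨f, hg1⟩ := hG1 r P ρ h
  obtain ⟨ha0, ha1, hge, -, -⟩ := hFA r P ρ h
  have g1 : ∀ z : P, ∑ w ∈ (h.deg z).1.toFinset, ((dn w : ℚ) - 1) =
      ∑ x ∈ (f z).toFinset, ((dn x : ℚ) + r - 1) := by
    intro z
    have := hg1 z (f z)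
    exact_mod_cast this
  have g2 : ∀ (n : ℕ) (F : P → P → ℚ), ∑ z ∈ (h.fin (n + 1)).toFinset, ∑ x ∈ (f z).toFinset, F x z =
      ∑ x ∈ (h.fin n).toFinset, ∑ z ∈ (h.deg x).1.toFinset, F x z := fun n F => hG2 r P ρ h n F f
  have c1 : ∀ z : P, (((f z).toFinset.card : ℕ) : ℚ) = dn z := by
    intro z
    unfold dn
    rw [Set.ncard_eq_toFinset_card _ (f z)]
  have c2 : ∀ x : P, (((h.deg x).1.toFinset.card : ℕ) : ℚ) = dn x + r := by
    intro x
    have := (h.deg x).2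
    rw [Set.ncard_eq_toFinset_card _ (h.deg x).1] at this
    rw [this]
    push_cast
    rfl
  have cA : ∀ n : ℕ, ({x : P | ρ x = n}.ncard : ℚ) = ((h.fin n).toFinset.card : ℕ) := by
    intro n
    rw [Set.ncard_eq_toFinset_card _ (h.fin n)]
  have d0 : ∀ z : P, ρ z = 0 → dn z = 0 := by
    intro z hz
    unfold dn
    have : {x : P | x ⋖ z} = ∅ := by
      ext x
      constructor
      · intro hx
        have := h.cov x z hx
        omega
      · intro hx
        exact hx.elim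
    rw [this, Set.ncard_empty]
  have d1 : ∀ z : P, ρ z = 1 → dn z = 1 := by
    intro z hz
    have h1 := hge z (by omega)
    have h2 : dn z ≤ {x : P | ρ x = 0}.ncard := by
      unfold dn
      refine Set.ncard_le_ncard ?_ (h.fin 0)
      intro x hx
      have := h.cov x z hx
      show ρ x = 0
      omega
    omega
  have hmem : ∀ (n : ℕ) (z : P), z ∈ (h.fin n).toFinset ↔ ρ z = n := by
    intro n z
    rw [Set.Finite.mem_toFinset]
    rfl
  set A : ℕ → ℚ := fun n => ({x : P | ρ x = n}.ncard : ℚ) with hA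
  set B : ℕ → ℚ := fun n => ∑ z ∈ (h.fin n).toFinset, (dn z : ℚ) with hB
  set G : ℕ → ℚ := fun n => ∑ z ∈ (h.fin n).toFinset, ((dn z : ℚ) + r) * (dn z + r - 1) with hG
  have hA1 : ∀ n (c : ℚ), ∑ z ∈ (h.fin n).toFinset, c = c * A n := by
    intro n c
    rw [sum_const, nsmul_eq_mul, hA]
    simp only
    rw [cA, mul_comm]
  have hdd : ∀ n, ∑ z ∈ (h.fin (n + 2)).toFinset, (dn z : ℚ) * (dn z - 1) = G n := by
    intro n
    have e1 := g2 (n + 1) (fun _ z => (dn z : ℚ) - 1)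
    have e2 := g2 n (fun x _ => (dn x : ℚ) + r - 1)
    have e3 : ∑ z ∈ (h.fin (n + 2)).toFinset, (dn z : ℚ) * (dn z - 1) =
        ∑ z ∈ (h.fin (n + 1 + 1)).toFinset, ∑ x ∈ (f z).toFinset, ((dn z : ℚ) - 1) := by
      refine sum_congr rfl fun z _ => ?_
      rw [sum_const, nsmul_eq_mul, c1]
    rw [e3, e1, sum_congr rfl (fun z _ => g1 z), e2, hG]
    refine sum_congr rfl fun x _ => ?_
    rw [sum_const, nsmul_eq_mul, c2]
  refine ⟨A, B, G, fun n => rfl, ?_, ?_, ?_, ?_, ?_, ?_, ?_, ?_⟩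
  · show ({x : P | ρ x = 0}.ncard : ℚ) = 1
    rw [ha0, Nat.cast_one]
  · show ({x : P | ρ x = 1}.ncard : ℚ) = r
    rw [ha1]
  · show ∑ z ∈ (h.fin 0).toFinset, (dn z : ℚ) = 0
    refine sum_eq_zero fun z hz => ?_
    rw [d0 z ((hmem 0 z).1 hz), Nat.cast_zero]
  · show ∑ z ∈ (h.fin 0).toFinset, ((dn z : ℚ) + r) * (dn z + r - 1) = r * (r - 1)
    rw [sum_congr rfl (fun z hz => by rw [d0 z ((hmem 0 z).1 hz), Nat.cast_zero, zero_add]), hA1]
    show (r : ℚ) * (r - 1) * ({x : P | ρ x = 0}.ncard : ℚ) = _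
    rw [ha0, Nat.cast_one, mul_one]
  · show ∑ z ∈ (h.fin 1).toFinset, ((dn z : ℚ) + r) * (dn z + r - 1) = (r + 1) * r * r
    rw [sum_congr rfl (fun z hz => by rw [d1 z ((hmem 1 z).1 hz), Nat.cast_one]), hA1]
    show ((1 : ℚ) + r) * (1 + r - 1) * ({x : P | ρ x = 1}.ncard : ℚ) = _
    rw [ha1]
    ring
  · intro n
    have e1 := g2 n (fun _ _ => (1 : ℚ))
    have e2 : ∑ z ∈ (h.fin (n + 1)).toFinset, ∑ x ∈ (f z).toFinset, (1 : ℚ) = B (n + 1) := by
      rw [hB]
      refine sum_congr rfl fun z _ => ?_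
      rw [sum_const, nsmul_eq_mul, c1, mul_one]
    have e3 : ∑ x ∈ (h.fin n).toFinset, ∑ z ∈ (h.deg x).1.toFinset, (1 : ℚ) = B n + r * A n := by
      rw [← hA1, hB]
      simp only
      rw [← sum_add_distrib]
      refine sum_congr rfl fun z _ => ?_
      rw [sum_const, nsmul_eq_mul, c2, mul_one]
    rw [← e2, e1, e3]
  · intro n
    rw [← hdd n, ← hA1 (n + 2), hB, mul_sum, ← sum_add_distrib, ← sum_add_distrib, hG]
    refine sum_congr rfl fun z _ => ?_
    ring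
  · intro n
    have e : 0 ≤ ∑ z ∈ (h.fin (n + 2)).toFinset, ((dn z : ℚ) - (n + 1)) * ((dn z : ℚ) - (n + 2)) := by
      refine sum_nonneg fun z _ => ?_
      have h1 : (0 : ℤ) ≤ ((dn z : ℤ) - (n + 1)) * ((dn z : ℤ) - (n + 2)) := by
        rcases le_or_gt (dn z : ℤ) (n + 1) with hh | hh
        · exact mul_nonneg_of_nonpos_of_nonpos (by linarith) (by linarith)
        · exact mul_nonneg (by linarith) (by linarith)
      exact_mod_cast h1
    have e2 : ∑ z ∈ (h.fin (n + 2)).toFinset, ((dn z : ℚ) - (n + 1)) * ((dn z : ℚ) - (n + 2)) =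
        G n - 2 * (n + 1) * B (n + 2) + (n + 1) * (n + 2) * A (n + 2) := by
      rw [← hdd n, ← hA1 (n + 2), hB, mul_sum, ← sum_sub_distrib, ← sum_add_distrib]
      refine sum_congr rfl fun z _ => ?_
      ring
    rw [e2] at e
    linarith

end Pool.Agent.H89.DP.L.MOM
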