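import Pool.Agent.H89.DP.Defs

set_option autoImplicit false

/-! DPO-PROD: products of differential posets. -/

namespace Pool.Agent.H89.DP.L.PROD

open Set

section

variable {P Q : Type} [PartialOrder P] [PartialOrder Q]

theorem up_eq (x : P × Q) :
    {z : P × Q | x ⋖ z} = (fun u => (u, x.2)) '' {u : P | x.1 ⋖ u} ∪ (fun v => (x.1, v)) '' {v : Q | x.2 ⋖ v} := by
  obtain ⟨a, b⟩ := x
  ext ⟨u, v⟩
  simp only [mem_setOf_eq, mem_union, mem_image, Prod.mk.injEq]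
  rw [Prod.mk_covBy_mk_iff]
  constructor
  · rintro (⟨h1, rfl⟩ | ⟨h1, rfl⟩)
    · exact Or.inl ⟨u, h1, rfl, rfl⟩
    · exact Or.inr ⟨v, h1, rfl, rfl⟩
  · rintro (⟨w, h1, rfl, rfl⟩ | ⟨w, h1, rfl, rfl⟩)
    · exact Or.inl ⟨h1, rfl⟩
    · exact Or.inr ⟨h1, rfl⟩

theorem dn_eq (x : P × Q) :
    {z : P × Q | z ⋖ x} = (fun u => (u, x.2)) '' {u : P | u ⋖ x.1} ∪ (fun v => (x.1, v)) '' {v : Q | v ⋖ x.2} := by
  obtain ⟨a, b⟩ := x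
  ext ⟨u, v⟩
  simp only [mem_setOf_eq, mem_union, mem_image, Prod.mk.injEq]
  rw [Prod.mk_covBy_mk_iff]
  constructor
  · rintro (⟨h1, rfl⟩ | ⟨h1, rfl⟩)
    · exact Or.inl ⟨u, h1, rfl, rfl⟩
    · exact Or.inr ⟨v, h1, rfl, rfl⟩
  · rintro (⟨w, h1, rfl, rfl⟩ | ⟨w, h1, rfl, rfl⟩)
    · exact Or.inl ⟨h1, rfl⟩
    · exact Or.inr ⟨h1, rfl⟩

theorem injL (b : Q) : Function.Injective fun u : P => (u, b) := fun _ _ h => (Prod.mk.inj h).1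

theorem injR (a : P) : Function.Injective fun v : Q => (a, v) := fun _ _ h => (Prod.mk.inj h).2

theorem union_card (a : P) (b : Q) {S : Set P} {T : Set Q} (hS : S.Finite) (hT : T.Finite) (ha : a ∉ S) :
    ((fun u => (u, b)) '' S ∪ (fun v => (a, v)) '' T).ncard = S.ncard + T.ncard := by
  rw [ncard_union_eq _ (hS.image _) (hT.image _), ncard_image_of_injective _ (injL b),
    ncard_image_of_injective _ (injR a)]
  rw [Set.disjoint_left]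
  rintro _ ⟨u, hu, rfl⟩ ⟨v, _, h⟩
  have : a = u := (Prod.mk.inj h).1
  exact ha (this ▸ hu)

theorem lowL (a : P) (b d : Q) (h : b ≠ d) :
    {z : P × Q | z ⋖ (a, b) ∧ z ⋖ (a, d)} = (fun v => (a, v)) '' {v : Q | v ⋖ b ∧ v ⋖ d} := by
  ext ⟨u, v⟩
  simp only [mem_setOf_eq, mem_image, Prod.mk.injEq]
  rw [Prod.mk_covBy_mk_iff, Prod.mk_covBy_mk_iff]
  constructor
  · rintro ⟨⟨h1, h2⟩ | ⟨h1, h2⟩, ⟨h3, h4⟩ | ⟨h3, h4⟩⟩
    · exact absurd (h2.symm.trans h4) h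
    · exact absurd h4 h1.ne
    · exact absurd h2 h3.ne
    · exact ⟨v, ⟨h1, h3⟩, h2.symm, rfl⟩
  · rintro ⟨w, ⟨h1, h2⟩, rfl, rfl⟩
    exact ⟨Or.inr ⟨h1, rfl⟩, Or.inr ⟨h2, rfl⟩⟩

theorem uppL (a : P) (b d : Q) (h : b ≠ d) :
    {z : P × Q | (a, b) ⋖ z ∧ (a, d) ⋖ z} = (fun v => (a, v)) '' {v : Q | b ⋖ v ∧ d ⋖ v} := by
  ext ⟨u, v⟩
  simp only [mem_setOf_eq, mem_image, Prod.mk.injEq]
  rw [Prod.mk_covBy_mk_iff, Prod.mk_covBy_mk_iff]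
  constructor
  · rintro ⟨⟨h1, h2⟩ | ⟨h1, h2⟩, ⟨h3, h4⟩ | ⟨h3, h4⟩⟩
    · exact absurd (h2.trans h4.symm) h
    · exact absurd h4 h1.ne
    · exact absurd h2 h3.ne
    · exact ⟨v, ⟨h1, h3⟩, h2, rfl⟩
  · rintro ⟨w, ⟨h1, h2⟩, rfl, rfl⟩
    exact ⟨Or.inr ⟨h1, rfl⟩, Or.inr ⟨h2, rfl⟩⟩

theorem lowR (a c : P) (b : Q) (h : a ≠ c) :
    {z : P × Q | z ⋖ (a, b) ∧ z ⋖ (c, b)} = (fun u => (u, b)) '' {u : P | u ⋖ a ∧ u ⋖ c} := by
  ext ⟨u, v⟩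
  simp only [mem_setOf_eq, mem_image, Prod.mk.injEq]
  rw [Prod.mk_covBy_mk_iff, Prod.mk_covBy_mk_iff]
  constructor
  · rintro ⟨⟨h1, h2⟩ | ⟨h1, h2⟩, ⟨h3, h4⟩ | ⟨h3, h4⟩⟩
    · exact ⟨u, ⟨h1, h3⟩, rfl, h2.symm⟩
    · exact absurd h2 h3.ne
    · exact absurd h4 h1.ne
    · exact absurd (h2.symm.trans h4) h
  · rintro ⟨w, ⟨h1, h2⟩, rfl, rfl⟩
    exact ⟨Or.inl ⟨h1, rfl⟩, Or.inl ⟨h2, rfl⟩⟩

theorem uppR (a c : P) (b : Q) (h : a ≠ c) :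
    {z : P × Q | (a, b) ⋖ z ∧ (c, b) ⋖ z} = (fun u => (u, b)) '' {u : P | a ⋖ u ∧ c ⋖ u} := by
  ext ⟨u, v⟩
  simp only [mem_setOf_eq, mem_image, Prod.mk.injEq]
  rw [Prod.mk_covBy_mk_iff, Prod.mk_covBy_mk_iff]
  constructor
  · rintro ⟨⟨h1, h2⟩ | ⟨h1, h2⟩, ⟨h3, h4⟩ | ⟨h3, h4⟩⟩
    · exact ⟨u, ⟨h1, h3⟩, rfl, h2⟩
    · exact absurd h2 h3.ne
    · exact absurd h4 h1.ne
    · exact absurd (h2.trans h4.symm) h
  · rintro ⟨w, ⟨h1, h2⟩, rfl, rfl⟩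
    exact ⟨Or.inl ⟨h1, rfl⟩, Or.inl ⟨h2, rfl⟩⟩

theorem low_mem (a c : P) (b d : Q) (h : a ≠ c) (h' : b ≠ d) (z : P × Q) :
    (z ⋖ (a, b) ∧ z ⋖ (c, d)) ↔ (z = (c, b) ∧ c ⋖ a ∧ b ⋖ d) ∨ (z = (a, d) ∧ a ⋖ c ∧ d ⋖ b) := by
  obtain ⟨u, v⟩ := z
  rw [Prod.mk_covBy_mk_iff, Prod.mk_covBy_mk_iff, Prod.mk.injEq, Prod.mk.injEq]
  constructor
  · rintro ⟨⟨h1, h2⟩ | ⟨h1, h2⟩, ⟨h3, h4⟩ | ⟨h3, h4⟩⟩
    · exact absurd (h2.symm.trans h4) h'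
    · subst h2 h4; exact Or.inl ⟨⟨rfl, rfl⟩, h1, h3⟩
    · subst h2 h4; exact Or.inr ⟨⟨rfl, rfl⟩, h3, h1⟩
    · exact absurd (h2.symm.trans h4) h
  · rintro (⟨⟨rfl, rfl⟩, h1, h2⟩ | ⟨⟨rfl, rfl⟩, h1, h2⟩)
    · exact ⟨Or.inl ⟨h1, rfl⟩, Or.inr ⟨h2, rfl⟩⟩
    · exact ⟨Or.inr ⟨h2, rfl⟩, Or.inl ⟨h1, rfl⟩⟩

theorem upp_mem (a c : P) (b d : Q) (h : a ≠ c) (h' : b ≠ d) (z : P × Q) :
    ((a, b) ⋖ z ∧ (c, d) ⋖ z) ↔ (z = (c, b) ∧ a ⋖ c ∧ d ⋖ b) ∨ (z = (a, d) ∧ c ⋖ a ∧ b ⋖ d) := by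
  obtain ⟨u, v⟩ := z
  rw [Prod.mk_covBy_mk_iff, Prod.mk_covBy_mk_iff, Prod.mk.injEq, Prod.mk.injEq]
  constructor
  · rintro ⟨⟨h1, h2⟩ | ⟨h1, h2⟩, ⟨h3, h4⟩ | ⟨h3, h4⟩⟩
    · exact absurd (h2.trans h4.symm) h'
    · subst h2 h4; exact Or.inl ⟨⟨rfl, rfl⟩, h1, h3⟩
    · subst h2 h4; exact Or.inr ⟨⟨rfl, rfl⟩, h3, h1⟩
    · exact absurd (h2.trans h4.symm) h
  · rintro (⟨⟨rfl, rfl⟩, h1, h2⟩ | ⟨⟨rfl, rfl⟩, h1, h2⟩)
    · exact ⟨Or.inl ⟨h1, rfl⟩, Or.inr ⟨h2, rfl⟩⟩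
    · exact ⟨Or.inr ⟨h2, rfl⟩, Or.inl ⟨h1, rfl⟩⟩

theorem mixed (a c : P) (b d : Q) (h : a ≠ c) (h' : b ≠ d) :
    {z : P × Q | z ⋖ (a, b) ∧ z ⋖ (c, d)}.ncard = {z : P × Q | (a, b) ⋖ z ∧ (c, d) ⋖ z}.ncard := by
  by_cases h1 : c ⋖ a ∧ b ⋖ d
  · have h2 : ¬ (a ⋖ c ∧ d ⋖ b) := fun h3 => lt_asymm h1.1.lt h3.1.lt
    have e1 : {z : P × Q | z ⋖ (a, b) ∧ z ⋖ (c, d)} = {(c, b)} := by
      ext z
      rw [mem_setOf_eq, low_mem a c b d h h', mem_singleton_iff]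
      tauto
    have e2 : {z : P × Q | (a, b) ⋖ z ∧ (c, d) ⋖ z} = {(a, d)} := by
      ext z
      rw [mem_setOf_eq, upp_mem a c b d h h', mem_singleton_iff]
      tauto
    rw [e1, e2, ncard_singleton, ncard_singleton]
  · by_cases h2 : a ⋖ c ∧ d ⋖ b
    · have e1 : {z : P × Q | z ⋖ (a, b) ∧ z ⋖ (c, d)} = {(a, d)} := by
        ext z
        rw [mem_setOf_eq, low_mem a c b d h h', mem_singleton_iff]
        tauto
      have e2 : {z : P × Q | (a, b) ⋖ z ∧ (c, d) ⋖ z} = {(c, b)} := by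
        ext z
        rw [mem_setOf_eq, upp_mem a c b d h h', mem_singleton_iff]
        tauto
      rw [e1, e2, ncard_singleton, ncard_singleton]
    · have e1 : {z : P × Q | z ⋖ (a, b) ∧ z ⋖ (c, d)} = ∅ := by
        ext z
        rw [mem_setOf_eq, low_mem a c b d h h', mem_empty_iff_false]
        tauto
      have e2 : {z : P × Q | (a, b) ⋖ z ∧ (c, d) ⋖ z} = ∅ := by
        ext z
        rw [mem_setOf_eq, upp_mem a c b d h h', mem_empty_iff_false]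
        tauto
      rw [e1, e2]

end

theorem dn_fin {r : ℕ} {P : Type} [PartialOrder P] [OrderBot P] [LocallyFiniteOrder P] {ρ : P → ℕ}
    (h : IsDiff r P ρ) (x : P) : {z : P | z ⋖ x}.Finite := by
  refine (h.fin (ρ x - 1)).subset fun z hz => ?_
  have := h.cov z x hz
  show ρ z = ρ x - 1
  omega

theorem main : S_PROD := by
  classical
  rintro r s a b ⟨P, _, _, _, ρ, hP, ha⟩ ⟨Q, _, _, _, σ, hQ, hb⟩
  have hset : ∀ n : ℕ, {z : P × Q | ρ z.1 + σ z.2 = n} =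
      ↑((Finset.HasAntidiagonal.antidiagonal n).biUnion fun ij =>
        (hP.fin ij.1).toFinset ×ˢ (hQ.fin ij.2).toFinset) := by
    intro n
    ext ⟨u, v⟩
    simp only [mem_setOf_eq, Finset.coe_biUnion, Finset.mem_coe, Finset.coe_product,
      Set.Finite.coe_toFinset, mem_iUnion, mem_prod]
    constructor
    · intro h
      exact ⟨(ρ u, σ v), Finset.HasAntidiagonal.mem_antidiagonal.2 h, rfl, rfl⟩
    · rintro ⟨⟨i, j⟩, h1, h2, h3⟩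
      have h4 := Finset.HasAntidiagonal.mem_antidiagonal.1 h1
      simp only at h4 h2 h3
      omega
  refine ⟨P × Q, inferInstance, inferInstance, inferInstance, fun z => ρ z.1 + σ z.2, ?_, fun n => ?_⟩
  · constructor
    · show ρ ⊥ + σ ⊥ = 0
      rw [hP.bot, hQ.bot]
    · rintro ⟨x1, x2⟩ ⟨y1, y2⟩ h
      rw [Prod.mk_covBy_mk_iff] at h
      simp only
      rcases h with ⟨h1, rfl⟩ | ⟨h1, rfl⟩
      · rw [hP.cov _ _ h1]; ring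
      · rw [hQ.cov _ _ h1]; ring
    · intro n
      rw [hset n]
      exact Finset.finite_toSet _
    · intro x
      rw [up_eq, dn_eq]
      have h1 := hP.deg x.1
      have h2 := hQ.deg x.2
      refine ⟨(h1.1.image _).union (h2.1.image _), ?_⟩
      rw [union_card x.1 x.2 h1.1 h2.1 (fun h => lt_irrefl _ (CovBy.lt h)),
        union_card x.1 x.2 (dn_fin hP _) (dn_fin hQ _) (fun h => lt_irrefl _ (CovBy.lt h)), h1.2, h2.2]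
      ring
    · rintro ⟨x1, x2⟩ ⟨y1, y2⟩ hne
      by_cases h1 : x1 = y1
      · subst h1
        have h2 : x2 ≠ y2 := fun h => hne (by rw [h])
        rw [lowL _ _ _ h2, uppL _ _ _ h2, ncard_image_of_injective _ (injR x1),
          ncard_image_of_injective _ (injR x1)]
        exact hQ.pair _ _ h2
      · by_cases h2 : x2 = y2
        · subst h2
          rw [lowR _ _ _ h1, uppR _ _ _ h1, ncard_image_of_injective _ (injL x2),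
            ncard_image_of_injective _ (injL x2)]
          exact hP.pair _ _ h1
        · exact mixed _ _ _ _ h1 h2
  · rw [hset n, Set.ncard_coe_finset, Finset.card_biUnion]
    · refine Finset.sum_congr rfl fun ij _ => ?_
      rw [Finset.card_product, ← Set.ncard_eq_toFinset_card _ (hP.fin ij.1),
        ← Set.ncard_eq_toFinset_card _ (hQ.fin ij.2), ha, hb]
    · rintro ⟨i, j⟩ _ ⟨k, l⟩ _ hne
      rw [Function.onFun, Finset.disjoint_left]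
      rintro ⟨u, v⟩ h1 h2
      simp only [Finset.mem_product, Set.Finite.mem_toFinset, mem_setOf_eq] at h1 h2
      exact hne (by rw [← h1.1, ← h1.2, ← h2.1, ← h2.2])

end Pool.Agent.H89.DP.L.PROD
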