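import Pool.Agent.H89.DP.Defs

/-!
# Young's lattice is 1-differential

Model: antitone finitely supported functions `ℕ → ℕ`.
-/

set_option autoImplicit false

namespace Pool.Agent.H89.DP.L.YNG

open Finsupp

/-- the elements of Young's lattice: row lengths -/
abbrev Yg : Type := {f : ℕ →₀ ℕ // Antitone (f : ℕ → ℕ)}

/-- the rank -/
noncomputable def rk (x : Yg) : ℕ := Finsupp.degree x.1

instance : OrderBot Yg where
  bot := ⟨0, fun _ _ _ => le_rfl⟩
  bot_le x := by
    show (0 : ℕ →₀ ℕ) ≤ x.1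
    exact zero_le

theorem degree_lt {f g : ℕ →₀ ℕ} (h : f < g) : Finsupp.degree f < Finsupp.degree g := by
  have h1 : g = f + (g - f) := (add_tsub_cancel_of_le h.le).symm
  have h2 : Finsupp.degree g = Finsupp.degree f + Finsupp.degree (g - f) := by
    conv_lhs => rw [h1]
    rw [map_add]
  have h3 : Finsupp.degree (g - f) ≠ 0 := by
    intro h0
    rw [Finsupp.degree_eq_zero_iff] at h0
    rw [h0, add_zero] at h1
    exact h.ne h1.symm
  omega

theorem rk_lt {x y : Yg} (h : x < y) : rk x < rk y := degree_lt h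

theorem anti_add {f : ℕ →₀ ℕ} (hf : Antitone (f : ℕ → ℕ)) (i : ℕ) :
    Antitone ((f + single i 1 : ℕ →₀ ℕ) : ℕ → ℕ) ↔ (i = 0 ∨ f i < f (i - 1)) := by
  constructor
  · intro h
    rcases Nat.eq_zero_or_pos i with h0 | h0
    · exact Or.inl h0
    · right
      have := h (show i - 1 ≤ i by omega)
      rw [Finsupp.add_apply, Finsupp.add_apply, Finsupp.single_apply, Finsupp.single_apply, if_pos rfl,
        if_neg (by omega)] at this
      omega
  · intro h
    refine antitone_nat_of_succ_le fun n => ?_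
    have h1 := hf (Nat.le_succ n)
    rw [Finsupp.add_apply, Finsupp.add_apply, Finsupp.single_apply, Finsupp.single_apply]
    rcases h with rfl | h
    · rw [if_neg (by omega)]
      show f (n + 1) + 0 ≤ _
      have : f (n + 1) ≤ f n := h1
      omega
    · by_cases h2 : i = n + 1
      · subst h2
        rw [if_pos rfl]
        have : f (n + 1) < f n := h
        omega
      · rw [if_neg h2]
        have : f (n + 1) ≤ f n := h1
        omega

theorem anti_sub {f : ℕ →₀ ℕ} (hf : Antitone (f : ℕ → ℕ)) {i : ℕ} (h : f (i + 1) < f i) :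
    Antitone ((f - single i 1 : ℕ →₀ ℕ) : ℕ → ℕ) := by
  refine antitone_nat_of_succ_le fun n => ?_
  have h1 : f (n + 1) ≤ f n := hf (Nat.le_succ n)
  rw [Finsupp.tsub_apply, Finsupp.tsub_apply, Finsupp.single_apply, Finsupp.single_apply]
  by_cases h2 : i = n
  · subst h2
    rw [if_pos rfl]
    omega
  · rw [if_neg h2]
    omega

theorem step {x y : Yg} (h : x < y) : ∃ i : ℕ, ∃ hi : Antitone ((x.1 + single i 1 : ℕ →₀ ℕ) : ℕ → ℕ),
    (⟨x.1 + single i 1, hi⟩ : Yg) ≤ y := by
  classical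
  have hle : ∀ j, x.1 j ≤ y.1 j := fun j => h.le j
  have hex : ∃ i, x.1 i < y.1 i := by
    by_contra hcon
    push Not at hcon
    exact absurd (show y ≤ x from fun j => hcon j) h.not_ge
  let i := Nat.find hex
  have hi : x.1 i < y.1 i := Nat.find_spec hex
  have hmin : ∀ j < i, x.1 j = y.1 j := fun j hj =>
    le_antisymm (hle j) (not_lt.1 (Nat.find_min hex hj))
  have hanti : Antitone ((x.1 + single i 1 : ℕ →₀ ℕ) : ℕ → ℕ) := by
    rw [anti_add x.2]
    rcases Nat.eq_zero_or_pos i with h0 | h0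
    · exact Or.inl h0
    · right
      rw [hmin (i - 1) (by omega)]
      exact hi.trans_le (y.2 (by omega))
  refine ⟨i, hanti, fun j => ?_⟩
  show (x.1 + single i 1 : ℕ →₀ ℕ) j ≤ y.1 j
  rw [Finsupp.add_apply, Finsupp.single_apply]
  split_ifs with h2
  · rw [← h2]
    exact hi
  · exact hle j

theorem lt_add (x : Yg) {i : ℕ} (hi : Antitone ((x.1 + single i 1 : ℕ →₀ ℕ) : ℕ → ℕ)) :
    x < (⟨x.1 + single i 1, hi⟩ : Yg) := by
  refine lt_of_le_of_ne (fun j => ?_) fun h => ?_
  · show x.1 j ≤ (x.1 + single i 1 : ℕ →₀ ℕ) j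
    rw [Finsupp.add_apply]
    exact Nat.le_add_right _ _
  · have h1 : x.1 = x.1 + single i 1 := congrArg Subtype.val h
    have h2 := DFunLike.congr_fun h1 i
    rw [Finsupp.add_apply, Finsupp.single_eq_same] at h2
    omega

theorem cov_iff (x y : Yg) : x ⋖ y ↔ ∃ i : ℕ, y.1 = x.1 + single i 1 := by
  constructor
  · intro h
    obtain ⟨i, hi, hle⟩ := step h.lt
    refine ⟨i, ?_⟩
    have h1 := h.2 (lt_add x hi)
    have h2 := (lt_or_eq_of_le hle).resolve_left h1
    exact (congrArg Subtype.val h2).symm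
  · rintro ⟨i, hi⟩
    have hanti : Antitone ((x.1 + single i 1 : ℕ →₀ ℕ) : ℕ → ℕ) := hi ▸ y.2
    have hy : y = ⟨x.1 + single i 1, hanti⟩ := Subtype.ext hi
    subst hy
    refine ⟨lt_add x hanti, fun z h1 h2 => ?_⟩
    have h3 := rk_lt h1
    have h4 := rk_lt h2
    unfold rk at h3 h4
    rw [map_add, Finsupp.degree_single] at h4
    omega

theorem cov_rk {x y : Yg} : x ⋖ y ↔ x ≤ y ∧ rk y = rk x + 1 := by
  constructor
  · intro h
    refine ⟨h.le, ?_⟩
    obtain ⟨i, hi⟩ := (cov_iff x y).1 h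
    unfold rk
    rw [hi, map_add, Finsupp.degree_single]
  · rintro ⟨h1, h2⟩
    have h3 : x < y := lt_of_le_of_ne h1 fun h => by rw [h] at h2; omega
    refine ⟨h3, fun z h4 h5 => ?_⟩
    have := rk_lt h4
    have := rk_lt h5
    omega

/-- the infimum -/
noncomputable def inf (x y : Yg) : Yg := ⟨x.1 ⊓ y.1, fun i j h => by
  show (x.1 ⊓ y.1 : ℕ →₀ ℕ) j ≤ (x.1 ⊓ y.1 : ℕ →₀ ℕ) i
  rw [Finsupp.inf_apply, Finsupp.inf_apply]
  exact inf_le_inf (x.2 h) (y.2 h)⟩

/-- the supremum -/
noncomputable def sup (x y : Yg) : Yg := ⟨x.1 ⊔ y.1, fun i j h => by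
  show (x.1 ⊔ y.1 : ℕ →₀ ℕ) j ≤ (x.1 ⊔ y.1 : ℕ →₀ ℕ) i
  rw [Finsupp.sup_apply, Finsupp.sup_apply]
  exact sup_le_sup (x.2 h) (y.2 h)⟩

theorem rk_inf_sup (x y : Yg) : rk (inf x y) + rk (sup x y) = rk x + rk y := by
  unfold rk inf sup
  rw [← map_add, ← map_add]
  congr 1
  ext i
  rw [Finsupp.add_apply, Finsupp.add_apply, Finsupp.inf_apply, Finsupp.sup_apply]
  exact min_add_max _ _

theorem inf_le (x y : Yg) : inf x y ≤ x ∧ inf x y ≤ y :=
  ⟨show x.1 ⊓ y.1 ≤ x.1 from inf_le_left, show x.1 ⊓ y.1 ≤ y.1 from inf_le_right⟩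

theorem le_sup (x y : Yg) : x ≤ sup x y ∧ y ≤ sup x y :=
  ⟨show x.1 ≤ x.1 ⊔ y.1 from le_sup_left, show y.1 ≤ x.1 ⊔ y.1 from le_sup_right⟩

theorem le_rk {x y : Yg} (h : x ≤ y) (h2 : rk y ≤ rk x) : x = y := by
  by_contra hne
  have := rk_lt (lt_of_le_of_ne h hne)
  omega

theorem lower (x y : Yg) (hne : x ≠ y) : {z : Yg | z ⋖ x ∧ z ⋖ y} =
    {z | z = inf x y ∧ rk x = rk (inf x y) + 1 ∧ rk y = rk (inf x y) + 1} := by
  ext z
  show (z ⋖ x ∧ z ⋖ y) ↔ (z = inf x y ∧ rk x = rk (inf x y) + 1 ∧ rk y = rk (inf x y) + 1)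
  constructor
  · rintro ⟨h1, h2⟩
    rw [cov_rk] at h1 h2
    have h3 : z ≤ inf x y := show z.1 ≤ x.1 ⊓ y.1 from le_inf h1.1 h2.1
    have h4 : rk (inf x y) < rk x := by
      refine rk_lt (lt_of_le_of_ne (inf_le x y).1 fun h => hne ?_)
      refine le_rk ?_ (by omega)
      rw [← h]
      exact (inf_le x y).2
    have h5 : z = inf x y := le_rk h3 (by omega)
    rw [← h5]
    exact ⟨rfl, h1.2, h2.2⟩
  · rintro ⟨rfl, h1, h2⟩
    exact ⟨cov_rk.2 ⟨(inf_le x y).1, h1⟩, cov_rk.2 ⟨(inf_le x y).2, h2⟩⟩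

theorem upper (x y : Yg) (hne : x ≠ y) : {z : Yg | x ⋖ z ∧ y ⋖ z} =
    {z | z = sup x y ∧ rk (sup x y) = rk x + 1 ∧ rk (sup x y) = rk y + 1} := by
  ext z
  show (x ⋖ z ∧ y ⋖ z) ↔ (z = sup x y ∧ rk (sup x y) = rk x + 1 ∧ rk (sup x y) = rk y + 1)
  constructor
  · rintro ⟨h1, h2⟩
    rw [cov_rk] at h1 h2
    have h3 : sup x y ≤ z := show x.1 ⊔ y.1 ≤ z.1 from _root_.sup_le h1.1 h2.1
    have h4 : rk x < rk (sup x y) := by
      refine rk_lt (lt_of_le_of_ne (le_sup x y).1 fun h => hne ?_)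
      refine (le_rk ?_ (by omega)).symm
      rw [h]
      exact (le_sup x y).2
    have h5 : sup x y = z := le_rk h3 (by omega)
    rw [h5]
    exact ⟨rfl, h1.2, h2.2⟩
  · rintro ⟨rfl, h1, h2⟩
    exact ⟨cov_rk.2 ⟨(le_sup x y).1, h1⟩, cov_rk.2 ⟨(le_sup x y).2, h2⟩⟩

theorem ncard_cond {α : Type} (a : α) (p : Prop) [Decidable p] :
    {z : α | z = a ∧ p}.ncard = if p then 1 else 0 := by
  split_ifs with h
  · have : {z : α | z = a ∧ p} = {a} := by
      ext z
      show (z = a ∧ p) ↔ z = a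
      tauto
    rw [this, Set.ncard_singleton]
  · have : {z : α | z = a ∧ p} = ∅ := by
      ext z
      show (z = a ∧ p) ↔ z ∈ (∅ : Set α)
      simp [h]
    rw [this, Set.ncard_empty]

theorem pair (x y : Yg) (hne : x ≠ y) :
    {z : Yg | z ⋖ x ∧ z ⋖ y}.ncard = {z : Yg | x ⋖ z ∧ y ⋖ z}.ncard := by
  classical
  rw [lower x y hne, upper x y hne, ncard_cond, ncard_cond]
  have h := rk_inf_sup x y
  congr 1
  apply propext
  constructor
  · rintro ⟨h1, h2⟩
    constructor <;> omega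
  · rintro ⟨h1, h2⟩
    constructor <;> omega

theorem up_image (x : Yg) : Subtype.val '' {z : Yg | x ⋖ z} =
    (fun i => x.1 + single i 1) '' {i : ℕ | i = 0 ∨ x.1 i < x.1 (i - 1)} := by
  ext f
  constructor
  · rintro ⟨z, hz, rfl⟩
    obtain ⟨i, hi⟩ := (cov_iff x z).1 hz
    refine ⟨i, ?_, hi.symm⟩
    show i = 0 ∨ x.1 i < x.1 (i - 1)
    rw [← anti_add x.2, ← hi]
    exact z.2
  · rintro ⟨i, hi, rfl⟩
    exact ⟨⟨x.1 + single i 1, (anti_add x.2 i).2 hi⟩, (cov_iff _ _).2 ⟨i, rfl⟩, rfl⟩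

theorem down_image (x : Yg) : Subtype.val '' {z : Yg | z ⋖ x} =
    (fun i => x.1 - single i 1) '' {i : ℕ | x.1 (i + 1) < x.1 i} := by
  ext f
  constructor
  · rintro ⟨z, hz, rfl⟩
    obtain ⟨i, hi⟩ := (cov_iff z x).1 hz
    refine ⟨i, ?_, ?_⟩
    · show x.1 (i + 1) < x.1 i
      rw [hi, Finsupp.add_apply, Finsupp.add_apply, Finsupp.single_apply, Finsupp.single_apply,
        if_pos rfl, if_neg (by omega)]
      have : z.1 (i + 1) ≤ z.1 i := z.2 (Nat.le_succ i)
      omega
    · show x.1 - single i 1 = z.1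
      rw [hi]
      exact add_tsub_cancel_right _ _
  · rintro ⟨i, hi, rfl⟩
    have hi' : x.1 (i + 1) < x.1 i := hi
    refine ⟨⟨x.1 - single i 1, anti_sub x.2 hi'⟩, (cov_iff _ _).2 ⟨i, ?_⟩, rfl⟩
    show x.1 = x.1 - single i 1 + single i 1
    ext j
    rw [Finsupp.add_apply, Finsupp.tsub_apply, Finsupp.single_apply]
    split_ifs with h
    · subst h
      omega
    · omega

theorem W_finite (x : Yg) : {i : ℕ | x.1 (i + 1) < x.1 i}.Finite := by
  refine x.1.support.finite_toSet.subset fun i hi => ?_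
  have hi' : x.1 (i + 1) < x.1 i := hi
  rw [Finset.mem_coe, Finsupp.mem_support_iff]
  omega

theorem U_eq (x : Yg) : {i : ℕ | i = 0 ∨ x.1 i < x.1 (i - 1)} =
    insert 0 ((fun i => i + 1) '' {i : ℕ | x.1 (i + 1) < x.1 i}) := by
  ext i
  rw [Set.mem_insert_iff, Set.mem_image]
  show (i = 0 ∨ x.1 i < x.1 (i - 1)) ↔ _
  constructor
  · rintro (h | h)
    · exact Or.inl h
    · rcases Nat.eq_zero_or_pos i with h0 | h0
      · exact Or.inl h0
      · right
        refine ⟨i - 1, ?_, by omega⟩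
        show x.1 (i - 1 + 1) < x.1 (i - 1)
        rwa [Nat.sub_add_cancel h0]
  · rintro (h | ⟨j, hj, rfl⟩)
    · exact Or.inl h
    · exact Or.inr hj

theorem U_card (x : Yg) : {i : ℕ | i = 0 ∨ x.1 i < x.1 (i - 1)}.Finite ∧
    {i : ℕ | i = 0 ∨ x.1 i < x.1 (i - 1)}.ncard = {i : ℕ | x.1 (i + 1) < x.1 i}.ncard + 1 := by
  rw [U_eq]
  refine ⟨((W_finite x).image _).insert _, ?_⟩
  rw [Set.ncard_insert_of_notMem _ ((W_finite x).image _),
    Set.ncard_image_of_injective _ (fun a b h => Nat.succ_injective h)]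
  rintro ⟨j, -, hj⟩
  exact Nat.succ_ne_zero j hj

theorem deg (x : Yg) : {z : Yg | x ⋖ z}.Finite ∧ {z : Yg | x ⋖ z}.ncard = {z : Yg | z ⋖ x}.ncard + 1 := by
  have hU := U_card x
  have h1 : Function.Injective (fun i : ℕ => x.1 + single i 1) := by
    intro i j h
    have h2 : single i 1 = single j 1 := add_left_cancel h
    exact (Finsupp.single_left_inj one_ne_zero).1 h2
  have h2 : Set.InjOn (fun i : ℕ => x.1 - single i 1) {i : ℕ | x.1 (i + 1) < x.1 i} := by
    intro i hi j hj h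
    have hi' : x.1 (i + 1) < x.1 i := hi
    by_contra hne
    have h3 : (x.1 - single i 1 : ℕ →₀ ℕ) i = (x.1 - single j 1 : ℕ →₀ ℕ) i := DFunLike.congr_fun h i
    rw [Finsupp.tsub_apply, Finsupp.tsub_apply, Finsupp.single_apply, Finsupp.single_apply, if_pos rfl,
      if_neg (fun h => hne h.symm)] at h3
    omega
  constructor
  · refine Set.Finite.of_finite_image ?_ Subtype.val_injective.injOn
    rw [up_image]
    exact hU.1.image _
  · rw [← Set.ncard_image_of_injective _ (Subtype.val_injective (p := fun f : ℕ →₀ ℕ => Antitone (f : ℕ → ℕ))),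
      up_image, Set.ncard_image_of_injective _ h1, hU.2,
      ← Set.ncard_image_of_injective {z : Yg | z ⋖ x}
        (Subtype.val_injective (p := fun f : ℕ →₀ ℕ => Antitone (f : ℕ → ℕ))),
      down_image, h2.ncard_image]

/-! ### The rank sizes -/

/-- the number of the elements larger than `i` -/
def cn (s : Multiset ℕ) (i : ℕ) : ℕ := (s.filter (i < ·)).card

theorem cn_zero (i : ℕ) : cn 0 i = 0 := rfl

theorem cn_cons (a : ℕ) (s : Multiset ℕ) (i : ℕ) : cn (a ::ₘ s) i = (if i < a then 1 else 0) + cn s i := by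
  unfold cn
  by_cases h : i < a
  · rw [Multiset.filter_cons_of_pos _ h, Multiset.card_cons, if_pos h, add_comm]
  · rw [Multiset.filter_cons_of_neg _ h, if_neg h, zero_add]

theorem cn_add (s t : Multiset ℕ) (i : ℕ) : cn (s + t) i = cn s i + cn t i := by
  unfold cn
  rw [Multiset.filter_add, Multiset.card_add]

theorem cn_replicate (m a i : ℕ) : cn (Multiset.replicate m a) i = if i < a then m else 0 := by
  induction m with
  | zero => simp [cn_zero]
  | succ m ih =>
    rw [Multiset.replicate_succ, cn_cons, ih]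
    split_ifs <;> omega

theorem cn_anti (s : Multiset ℕ) : Antitone (cn s) := by
  intro i j h
  exact Multiset.card_le_card (Multiset.monotone_filter_right s fun a ha => lt_of_le_of_lt h ha)

theorem cn_sum (N : ℕ) (s : Multiset ℕ) : (∀ a ∈ s, a ≤ N) → ∑ i ∈ Finset.range N, cn s i = s.sum := by
  induction s using Multiset.induction with
  | empty => intro _; simp [cn_zero]
  | cons a s ih =>
    intro h
    rw [Multiset.sum_cons, ← ih fun b hb => h b (Multiset.mem_cons_of_mem hb)]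
    have ha : a ≤ N := h a (Multiset.mem_cons_self a s)
    have h1 : ∑ i ∈ Finset.range N, cn (a ::ₘ s) i =
        ∑ i ∈ Finset.range N, ((if i < a then 1 else 0) + cn s i) :=
      Finset.sum_congr rfl fun i _ => cn_cons a s i
    rw [h1, Finset.sum_add_distrib]
    congr 1
    rw [← Finset.card_filter]
    have h2 : (Finset.range N).filter (fun i => i < a) = Finset.range a := by
      ext i
      rw [Finset.mem_filter, Finset.mem_range, Finset.mem_range]
      omega
    rw [h2, Finset.card_range]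

theorem cn_count (s : Multiset ℕ) (i : ℕ) : cn s i = cn s (i + 1) + s.count (i + 1) := by
  induction s using Multiset.induction with
  | empty => simp [cn_zero]
  | cons a s ih =>
    rw [cn_cons, cn_cons, Multiset.count_cons, ih]
    split_ifs <;> omega

theorem cn_zero_of {s : Multiset ℕ} {i : ℕ} (h : ∀ a ∈ s, a ≤ i) : cn s i = 0 := by
  unfold cn
  rw [Multiset.card_eq_zero, Multiset.filter_eq_nil]
  exact fun a ha => not_lt.2 (h a ha)

/-- the multiset of a function -/
def ms (f : ℕ → ℕ) : ℕ → Multiset ℕ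
  | 0 => 0
  | N + 1 => ms f N + Multiset.replicate (f N - f (N + 1)) (N + 1)

theorem ms_cn {f : ℕ → ℕ} (hf : Antitone f) (N j : ℕ) : cn (ms f N) j = f j - f N := by
  induction N with
  | zero =>
    have := hf (Nat.zero_le j)
    rw [ms, cn_zero]
    omega
  | succ N ih =>
    rw [ms, cn_add, ih, cn_replicate]
    have h1 := hf (Nat.le_succ N)
    simp only [Nat.succ_eq_add_one] at h1
    split_ifs with h
    · have h2 := hf (show j ≤ N by omega)
      omega
    · have h2 := hf (show N + 1 ≤ j by omega)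
      omega

theorem ms_mem {f : ℕ → ℕ} {N a : ℕ} (h : a ∈ ms f N) : 0 < a ∧ a ≤ N := by
  induction N with
  | zero => simp [ms] at h
  | succ N ih =>
    rw [ms, Multiset.mem_add] at h
    rcases h with h | h
    · have := ih h
      omega
    · have := Multiset.eq_of_mem_replicate h
      omega

theorem part_le {n : ℕ} (l : Nat.Partition n) {a : ℕ} (ha : a ∈ l.parts) : a ≤ n := by
  rw [← l.parts_sum]
  exact Multiset.single_le_sum (fun _ _ => Nat.zero_le _) a ha

theorem degree_sum (f : ℕ →₀ ℕ) (N : ℕ) (h : ∀ i, N ≤ i → f i = 0) :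
    Finsupp.degree f = ∑ i ∈ Finset.range N, f i := by
  have h1 : Finsupp.degree f = ∑ i ∈ f.support, f i := rfl
  rw [h1]
  refine Finset.sum_subset (fun i hi => ?_) fun i _ hi => ?_
  · rw [Finset.mem_range]
    by_contra hcon
    exact (Finsupp.mem_support_iff.1 hi) (h i (not_lt.1 hcon))
  · by_contra hne
    exact hi (Finsupp.mem_support_iff.2 hne)

/-- the function of a partition -/
noncomputable def fn {n : ℕ} (l : Nat.Partition n) : ℕ →₀ ℕ :=
  Finsupp.onFinset (Finset.range n) (cn l.parts) fun i hi => by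
    rw [Finset.mem_range]
    by_contra hcon
    exact hi (cn_zero_of fun a ha => (part_le l ha).trans (not_lt.1 hcon))

theorem fn_degree {n : ℕ} (l : Nat.Partition n) : Finsupp.degree (fn l) = n := by
  have h1 : Finsupp.degree (fn l) = ∑ i ∈ Finset.range n, fn l i :=
    degree_sum _ _ fun i hi => cn_zero_of fun a ha => (part_le l ha).trans hi
  rw [h1]
  refine Eq.trans ?_ l.parts_sum
  exact cn_sum n l.parts fun a ha => part_le l ha

/-- the map from the partitions -/
noncomputable def toY (n : ℕ) (l : Nat.Partition n) : {x : Yg // rk x = n} :=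
  ⟨⟨fn l, cn_anti l.parts⟩, fn_degree l⟩

theorem toY_bij (n : ℕ) : Function.Bijective (toY n) := by
  constructor
  · intro l m h
    have h1 : ∀ i, cn l.parts i = cn m.parts i := fun i => by
      have : fn l = fn m := congrArg (fun q => q.1.1) h
      exact DFunLike.congr_fun this i
    apply Nat.Partition.ext
    ext a
    rcases Nat.eq_zero_or_pos a with rfl | ha
    · rw [Multiset.count_eq_zero_of_notMem fun h => (l.parts_pos h).ne rfl,
        Multiset.count_eq_zero_of_notMem fun h => (m.parts_pos h).ne rfl]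
    · obtain ⟨b, rfl⟩ : ∃ b, a = b + 1 := ⟨a - 1, by omega⟩
      have h2 := cn_count l.parts b
      have h3 := cn_count m.parts b
      rw [h1 b, h1 (b + 1)] at h2
      omega
  · rintro ⟨⟨f, hf⟩, hn⟩
    have hn' : Finsupp.degree f = n := hn
    obtain ⟨N, hN⟩ : ∃ N, ∀ i, N ≤ i → f i = 0 := by
      refine ⟨f.support.sup id + 1, fun i hi => ?_⟩
      by_contra hne
      have : i ≤ f.support.sup id := Finset.le_sup (f := id) (Finsupp.mem_support_iff.2 hne)
      omega
    have hcn : ∀ j, cn (ms f N) j = f j := fun j => by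
      rw [ms_cn hf, hN N le_rfl, Nat.sub_zero]
    have hsum : (ms f N).sum = n := by
      rw [← cn_sum N _ fun a ha => (ms_mem ha).2, ← hn', degree_sum f N hN]
      exact Finset.sum_congr rfl fun i _ => hcn i
    refine ⟨⟨ms f N, fun {a} ha => (ms_mem ha).1, hsum⟩, ?_⟩
    apply Subtype.ext
    apply Subtype.ext
    ext j
    exact hcn j

theorem rank (n : ℕ) : {x : Yg | rk x = n}.Finite ∧
    {x : Yg | rk x = n}.ncard = Fintype.card (Nat.Partition n) := by
  have e := Equiv.ofBijective _ (toY_bij n)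
  constructor
  · exact Set.finite_coe_iff.1 (Finite.of_equiv _ e)
  · rw [← Nat.card_eq_fintype_card, Nat.card_congr e]
    rfl

theorem main : S_YNG := by
  classical
  refine ⟨Yg, inferInstance, inferInstance, inferInstance, rk, ⟨?_, fun x y h => (cov_rk.1 h).2,
    fun n => (rank n).1, deg, pair⟩, fun n => (rank n).2⟩
  exact map_zero Finsupp.degree

end Pool.Agent.H89.DP.L.YNG
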