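import Pool.Agent.H89.DP.Defs

/-! DPO-YTH (helper86): the small rank sizes of `Y^r`. -/

set_option autoImplicit false

namespace Pool.Agent.H89.DP.L.YTH

open Pool.Agent.H89.DP

lemma card0 : Fintype.card (Nat.Partition 0) = 1 := by decide +kernel
lemma card1 : Fintype.card (Nat.Partition 1) = 1 := by decide +kernel

lemma card_le_sum (s : Multiset ℕ) (h : ∀ i ∈ s, 0 < i) : s.card ≤ s.sum := by
  have := Multiset.card_nsmul_le_sum (s := s) (a := 1) (fun i hi => h i hi)
  simpa using this

lemma ms2 (s : Multiset ℕ) (h : ∀ i ∈ s, 0 < i) (hs : s.sum = 2) : s = {2} ∨ s = {1, 1} := by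
  have h1 := card_le_sum s h
  rw [hs] at h1
  have h0 : s.card ≠ 0 := by
    intro h0
    rw [Multiset.card_eq_zero] at h0
    rw [h0] at hs
    simp at hs
  have h2 : s.card = 1 ∨ s.card = 2 := by omega
  rcases h2 with h2 | h2
  · obtain ⟨a, rfl⟩ := Multiset.card_eq_one.mp h2
    rw [Multiset.sum_singleton] at hs
    left
    rw [hs]
  · obtain ⟨a, b, rfl⟩ := Multiset.card_eq_two.mp h2
    have ha := h a (by simp)
    have hb := h b (by simp)
    have hs' : a + b = 2 := by simpa using hs
    right
    obtain rfl : a = 1 := by omega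
    obtain rfl : b = 1 := by omega
    rfl

lemma ms3 (s : Multiset ℕ) (h : ∀ i ∈ s, 0 < i) (hs : s.sum = 3) :
    s = {3} ∨ s = {2, 1} ∨ s = {1, 1, 1} := by
  have h1 := card_le_sum s h
  rw [hs] at h1
  have h0 : s.card ≠ 0 := by
    intro h0
    rw [Multiset.card_eq_zero] at h0
    rw [h0] at hs
    simp at hs
  have h2 : s.card = 1 ∨ s.card = 2 ∨ s.card = 3 := by omega
  rcases h2 with h2 | h2 | h2
  · obtain ⟨a, rfl⟩ := Multiset.card_eq_one.mp h2
    rw [Multiset.sum_singleton] at hs
    left
    rw [hs]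
  · obtain ⟨a, b, rfl⟩ := Multiset.card_eq_two.mp h2
    have ha := h a (by simp)
    have hb := h b (by simp)
    have hs' : a + b = 3 := by simpa using hs
    right; left
    have h3 : a = 1 ∨ a = 2 := by omega
    rcases h3 with rfl | rfl
    · obtain rfl : b = 2 := by omega
      decide
    · obtain rfl : b = 1 := by omega
      rfl
  · obtain ⟨a, b, c, rfl⟩ := Multiset.card_eq_three.mp h2
    have ha := h a (by simp)
    have hb := h b (by simp)
    have hc := h c (by simp)
    have hs' : a + (b + c) = 3 := by simpa using hs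
    right; right
    obtain rfl : a = 1 := by omega
    obtain rfl : b = 1 := by omega
    obtain rfl : c = 1 := by omega
    rfl

lemma card2 : Fintype.card (Nat.Partition 2) = 2 := by
  classical
  let a : Nat.Partition 2 := ⟨{2}, by simp, by simp⟩
  let b : Nat.Partition 2 := ⟨{1, 1}, by simp, by simp⟩
  have h : (Finset.univ : Finset (Nat.Partition 2)) = {a, b} := by
    ext p
    simp only [Finset.mem_univ, Finset.mem_insert, Finset.mem_singleton, true_iff]
    rcases ms2 p.parts (fun i hi => p.parts_pos hi) p.parts_sum with h | h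
    · exact Or.inl (Nat.Partition.ext h)
    · exact Or.inr (Nat.Partition.ext h)
  rw [← Finset.card_univ, h, Finset.card_pair]
  intro h2
  have h3 := congrArg (fun q : Nat.Partition 2 => q.parts.card) h2
  simp [a, b] at h3

lemma card3 : Fintype.card (Nat.Partition 3) = 3 := by
  classical
  let a : Nat.Partition 3 := ⟨{3}, by simp, by simp⟩
  let b : Nat.Partition 3 := ⟨{2, 1}, by simp, by simp⟩
  let c : Nat.Partition 3 := ⟨{1, 1, 1}, by simp, by simp⟩
  have h : (Finset.univ : Finset (Nat.Partition 3)) = {a, b, c} := by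
    ext p
    simp only [Finset.mem_univ, Finset.mem_insert, Finset.mem_singleton, true_iff]
    rcases ms3 p.parts (fun i hi => p.parts_pos hi) p.parts_sum with h | h | h
    · exact Or.inl (Nat.Partition.ext h)
    · exact Or.inr (Or.inl (Nat.Partition.ext h))
    · exact Or.inr (Or.inr (Nat.Partition.ext h))
  have hc : ∀ x y : Nat.Partition 3, x.parts.card ≠ y.parts.card → x ≠ y := by
    rintro x y hxy rfl
    exact hxy rfl
  rw [← Finset.card_univ, h, Finset.card_eq_three]
  exact ⟨a, b, c, hc a b (by simp [a, b]), hc a c (by simp [a, c]), hc b c (by simp [b, c]), rfl⟩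

lemma y_one (n : ℕ) : y 1 n = Fintype.card (Nat.Partition n) := by
  unfold y
  rw [Finset.Nat.antidiagonalTuple_one]
  simp

lemma y_zero_zero : y 0 0 = 1 := by
  unfold y
  simp

lemma y_zero_succ (n : ℕ) : y 0 (n + 1) = 0 := by
  unfold y
  simp

theorem main : S_YTH := by
  intro hC r
  induction r with
  | zero =>
    refine ⟨y_zero_zero, y_zero_succ 0, ?_, ?_⟩
    · rw [y_zero_succ 1]
    · rw [y_zero_succ 2]
  | succ r ih =>
    obtain ⟨h0, h1, h2, h3⟩ := ih
    have e0 := hC r 1 0
    have e1 := hC r 1 1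
    have e2 := hC r 1 2
    have e3 := hC r 1 3
    rw [Finset.Nat.sum_antidiagonal_eq_sum_range_succ (fun i j => y r i * y 1 j)] at e0 e1 e2 e3
    simp only [Finset.sum_range_succ, Finset.sum_range_zero, y_one] at e0 e1 e2 e3
    norm_num [card0, card1, card2, card3, h0, h1] at e0 e1 e2 e3
    refine ⟨e0, by rw [e1]; ring, ?_, ?_⟩
    · rw [e2]
      nlinarith
    · rw [e3]
      nlinarith

end Pool.Agent.H89.DP.L.YTH
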