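import Pool.Agent.H89.DP.Defs2
import Pool.Agent.H89.DP.L.YTH

/-! DPO-YT4: the rank size of `Y^r` in rank 4. -/

set_option autoImplicit false

namespace Pool.Agent.H89.DP.L.YT4

open Pool.Agent.H89.DP Pool.Agent.H89.DP.L.YTH

lemma ms4 (s : Multiset ℕ) (h : ∀ i ∈ s, 0 < i) (hs : s.sum = 4) :
    s = {4} ∨ s = {3, 1} ∨ s = {2, 2} ∨ s = {2, 1, 1} ∨ s = {1, 1, 1, 1} := by
  have h1 := card_le_sum s h
  rw [hs] at h1
  have h0 : s.card ≠ 0 := by
    intro h0
    rw [Multiset.card_eq_zero] at h0
    rw [h0] at hs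
    simp at hs
  have h2 : s.card = 1 ∨ s.card = 2 ∨ s.card = 3 ∨ s.card = 4 := by omega
  rcases h2 with h2 | h2 | h2 | h2
  · obtain ⟨a, rfl⟩ := Multiset.card_eq_one.mp h2
    rw [Multiset.sum_singleton] at hs
    left
    rw [hs]
  · obtain ⟨a, b, rfl⟩ := Multiset.card_eq_two.mp h2
    have ha := h a (by simp)
    have hb := h b (by simp)
    have hs' : a + b = 4 := by simpa using hs
    have h3 : a = 1 ∨ a = 2 ∨ a = 3 := by omega
    rcases h3 with rfl | rfl | rfl
    · obtain rfl : b = 3 := by omega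
      right; left
      decide
    · obtain rfl : b = 2 := by omega
      right; right; left
      rfl
    · obtain rfl : b = 1 := by omega
      right; left
      rfl
  · obtain ⟨a, b, c, rfl⟩ := Multiset.card_eq_three.mp h2
    have ha := h a (by simp)
    have hb := h b (by simp)
    have hc := h c (by simp)
    have hs' : a + (b + c) = 4 := by simpa using hs
    right; right; right; left
    have h3 : (a = 2 ∧ b = 1 ∧ c = 1) ∨ (a = 1 ∧ b = 2 ∧ c = 1) ∨ (a = 1 ∧ b = 1 ∧ c = 2) := by
      omega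
    rcases h3 with ⟨rfl, rfl, rfl⟩ | ⟨rfl, rfl, rfl⟩ | ⟨rfl, rfl, rfl⟩
    · rfl
    · decide
    · decide
  · right; right; right; right
    have h3 : ∀ a ∈ s, a = 1 := by
      intro a ha
      obtain ⟨t, rfl⟩ := Multiset.exists_cons_of_mem ha
      have h4 := card_le_sum t (fun i hi => h i (Multiset.mem_cons_of_mem hi))
      rw [Multiset.sum_cons] at hs
      rw [Multiset.card_cons] at h2
      have h5 := h a (Multiset.mem_cons_self a t)
      omega
    have h4 := Multiset.eq_replicate_card.2 h3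
    rw [h4, h2]
    rfl

lemma card4 : Fintype.card (Nat.Partition 4) = 5 := by
  classical
  have hinj : Function.Injective (fun p : Nat.Partition 4 => p.parts) := fun p q h =>
    Nat.Partition.ext h
  have h : Finset.univ.image (fun p : Nat.Partition 4 => p.parts) =
      {({4} : Multiset ℕ), {3, 1}, {2, 2}, {2, 1, 1}, {1, 1, 1, 1}} := by
    ext s
    simp only [Finset.mem_image, Finset.mem_univ, true_and, Finset.mem_insert,
      Finset.mem_singleton]
    constructor
    · rintro ⟨p, rfl⟩
      exact ms4 p.parts (fun i hi => p.parts_pos hi) p.parts_sum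
    · rintro (rfl | rfl | rfl | rfl | rfl)
      · exact ⟨⟨{4}, by simp, by simp⟩, rfl⟩
      · exact ⟨⟨{3, 1}, by simp, by simp⟩, rfl⟩
      · exact ⟨⟨{2, 2}, by simp, by simp⟩, rfl⟩
      · exact ⟨⟨{2, 1, 1}, by simp, by simp⟩, rfl⟩
      · exact ⟨⟨{1, 1, 1, 1}, by simp, by simp⟩, rfl⟩
  rw [← Finset.card_univ, ← Finset.card_image_of_injective _ hinj, h]
  decide

theorem main : S_YT4 := by
  intro hC hY r
  induction r with
  | zero =>
    rw [y_zero_succ 3]
    norm_num
  | succ r ih =>
    obtain ⟨h0, h1, h2, h3⟩ := hY hC r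
    have e4 := hC r 1 4
    rw [Finset.Nat.sum_antidiagonal_eq_sum_range_succ (fun i j => y r i * y 1 j)] at e4
    simp only [Finset.sum_range_succ, Finset.sum_range_zero, y_one] at e4
    norm_num [card0, card1, card2, card3, card4, h0, h1] at e4
    rw [e4]
    nlinarith

end Pool.Agent.H89.DP.L.YT4
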