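import Pool.Agent.H89.DP.Defs3
import Pool.Agent.H89.DP.L.YTH

/-! # DPO-YUP (helper82) -/

set_option autoImplicit false

namespace Pool.Agent.H89.DP.L.YUP

lemma b1 (r : ℚ) (hr : 0 ≤ r) (k : ℕ) : r ^ (k + 1) + (k + 1) * r ^ k ≤ (r + 1) ^ (k + 1) := by
  induction k with
  | zero => simp
  | succ k ih =>
    have h := mul_le_mul_of_nonneg_left ih (show 0 ≤ r + 1 by linarith)
    have h2 : 0 ≤ r ^ k := pow_nonneg hr k
    have e : (r + 1) ^ (k + 1 + 1) = (r + 1) * (r + 1) ^ (k + 1) := by ring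
    rw [e]
    refine le_trans ?_ h
    push_cast
    have e2 : (r + 1) * (r ^ (k + 1) + (k + 1) * r ^ k) -
        (r ^ (k + 1 + 1) + ((k : ℚ) + 1 + 1) * r ^ (k + 1)) = (k + 1) * r ^ k := by ring
    have e3 : 0 ≤ ((k : ℚ) + 1) * r ^ k := by positivity
    linarith

lemma b2 (r : ℚ) (hr : 0 ≤ r) (k : ℕ) :
    r ^ (k + 2) + (k + 2) * r ^ (k + 1) + ((k : ℚ) + 2) * (k + 1) / 2 * r ^ k ≤ (r + 1) ^ (k + 2) := by
  induction k with
  | zero =>
    simp only [Nat.cast_zero, zero_add, pow_one, pow_zero]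
    nlinarith
  | succ k ih =>
    have h := mul_le_mul_of_nonneg_left ih (show 0 ≤ r + 1 by linarith)
    have h2 : 0 ≤ r ^ k := pow_nonneg hr k
    have e : (r + 1) ^ (k + 1 + 2) = (r + 1) * (r + 1) ^ (k + 2) := by ring
    rw [e]
    refine le_trans ?_ h
    push_cast
    have e2 : (r + 1) * (r ^ (k + 2) + ((k : ℚ) + 2) * r ^ (k + 1) + ((k : ℚ) + 2) * (k + 1) / 2 * r ^ k) -
        (r ^ (k + 1 + 2) + ((k : ℚ) + 1 + 2) * r ^ (k + 1 + 1) +
          ((k : ℚ) + 1 + 2) * (k + 1 + 1) / 2 * r ^ (k + 1)) = ((k : ℚ) + 2) * (k + 1) / 2 * r ^ k := by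
      ring
    have e3 : 0 ≤ ((k : ℚ) + 2) * (k + 1) / 2 * r ^ k := by positivity
    linarith

/-- the claim -/
def PP (m : ℕ) : Prop := ∃ K : ℚ, 0 ≤ K ∧ ∀ r : ℕ, 1 ≤ r →
  (y r (m + 2) : ℚ) ≤ (r : ℚ) ^ (m + 2) / (m + 2).factorial
      + 3 / 2 * (r : ℚ) ^ (m + 1) / m.factorial + K * (r : ℚ) ^ m

lemma BB (hC : S_CNV) (m : ℕ) (hP : ∀ k < m, PP k) (n : ℕ) (hn : n ≤ m + 1) :
    ∃ K : ℚ, 0 ≤ K ∧ ∀ r : ℕ, 1 ≤ r →
      (y r n : ℚ) ≤ (r : ℚ) ^ n / n.factorial + K * (r : ℚ) ^ (n - 1) := by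
  match n, hn with
  | 0, _ =>
    refine ⟨0, le_rfl, fun r _ => ?_⟩
    rw [(YTH.main hC r).1]
    simp
  | 1, _ =>
    refine ⟨0, le_rfl, fun r _ => ?_⟩
    rw [(YTH.main hC r).2.1]
    simp
  | k + 2, hn =>
    obtain ⟨K, hK, h⟩ := hP k (by omega)
    have hf : (0 : ℚ) < k.factorial := by exact_mod_cast Nat.factorial_pos k
    refine ⟨3 / 2 / k.factorial + K, by positivity, fun r hr => (h r hr).trans ?_⟩
    have hr1 : (1 : ℚ) ≤ r := by exact_mod_cast hr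
    have h1 : (r : ℚ) ^ k ≤ (r : ℚ) ^ (k + 1) := pow_le_pow_right₀ hr1 (by omega)
    have h2 : K * (r : ℚ) ^ k ≤ K * (r : ℚ) ^ (k + 1) := mul_le_mul_of_nonneg_left h1 hK
    rw [show k + 2 - 1 = k + 1 by omega]
    have h3 : (3 / 2 / (k.factorial : ℚ) + K) * (r : ℚ) ^ (k + 1) =
        3 / 2 * (r : ℚ) ^ (k + 1) / k.factorial + K * (r : ℚ) ^ (k + 1) := by ring
    rw [h3]
    linarith

lemma CC (hC : S_CNV) (m : ℕ) (hP : ∀ k < m, PP k) (n : ℕ) (hn : n ≤ m + 1) :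
    ∃ K : ℚ, 0 ≤ K ∧ ∀ r : ℕ, 1 ≤ r → (y r n : ℚ) ≤ K * (r : ℚ) ^ n := by
  obtain ⟨K, hK, h⟩ := BB hC m hP n hn
  have hf : (0 : ℚ) < n.factorial := by exact_mod_cast Nat.factorial_pos n
  refine ⟨1 / n.factorial + K, by positivity, fun r hr => (h r hr).trans ?_⟩
  have hr1 : (1 : ℚ) ≤ r := by exact_mod_cast hr
  have h1 : (r : ℚ) ^ (n - 1) ≤ (r : ℚ) ^ n := pow_le_pow_right₀ hr1 (by omega)
  have h2 : K * (r : ℚ) ^ (n - 1) ≤ K * (r : ℚ) ^ n := mul_le_mul_of_nonneg_left h1 hK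
  have h3 : (1 / (n.factorial : ℚ) + K) * (r : ℚ) ^ n = (r : ℚ) ^ n / n.factorial + K * (r : ℚ) ^ n := by
    ring
  rw [h3]
  linarith

lemma rec3 (hC : S_CNV) (r m : ℕ) : (y (r + 1) (m + 3) : ℚ) = y r (m + 3) + y r (m + 2) +
    2 * y r (m + 1) + ∑ k ∈ Finset.range (m + 1), (y r k : ℚ) * y 1 (m + 3 - k) := by
  obtain ⟨h0, h1, h2, -⟩ := YTH.main hC 1
  have h2' : y 1 2 = 2 := by omega
  have h := hC r 1 (m + 3)
  rw [Finset.Nat.sum_antidiagonal_eq_sum_range_succ (fun a b => y r a * y 1 b) (m + 3)] at h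
  rw [h, show (m + 3).succ = m + 1 + 1 + 1 + 1 by omega, Finset.sum_range_succ, Finset.sum_range_succ,
    Finset.sum_range_succ, show m + 3 - (m + 1) = 2 by omega, show m + 3 - (m + 1 + 1) = 1 by omega,
    show m + 3 - (m + 1 + 1 + 1) = 0 by omega, h0, h1, h2']
  push_cast
  ring

lemma step (hC : S_CNV) (m : ℕ) (hP : ∀ k < m + 1, PP k) : PP (m + 1) := by
  obtain ⟨K₂, hK₂, h2⟩ := hP m (by omega)
  obtain ⟨K₁, hK₁, h1⟩ := BB hC m (fun k hk => hP k (by omega)) (m + 1) le_rfl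
  have hc : ∀ k : ℕ, ∃ K : ℚ, 0 ≤ K ∧ (k ≤ m → ∀ r : ℕ, 1 ≤ r → (y r k : ℚ) ≤ K * (r : ℚ) ^ k) := by
    intro k
    by_cases hk : k ≤ m
    · obtain ⟨K, a, b⟩ := CC hC m (fun k hk => hP k (by omega)) k (by omega)
      exact ⟨K, a, fun _ => b⟩
    · exact ⟨0, le_rfl, fun h => absurd h hk⟩
  choose Kc hKc hKc2 using hc
  obtain ⟨S, hS⟩ : ∃ S : ℚ, S = ∑ k ∈ Finset.range (m + 1), Kc k * (y 1 (m + 3 - k) : ℚ) := ⟨_, rfl⟩
  have hS0 : 0 ≤ S := by
    rw [hS]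
    exact Finset.sum_nonneg fun k _ => mul_nonneg (hKc k) (Nat.cast_nonneg _)
  obtain ⟨K, hK⟩ : ∃ K : ℚ, K = S + K₂ + 2 * K₁ + y 1 (m + 3) := ⟨_, rfl⟩
  have hy : (0 : ℚ) ≤ y 1 (m + 3) := Nat.cast_nonneg _
  have hK0 : 0 ≤ K := by rw [hK]; positivity
  refine ⟨K, hK0, fun r hr => ?_⟩
  have f0 : (0 : ℚ) < m.factorial := by exact_mod_cast Nat.factorial_pos m
  have f1 : (0 : ℚ) < (m + 1).factorial := by exact_mod_cast Nat.factorial_pos _
  have f2 : (0 : ℚ) < (m + 2).factorial := by exact_mod_cast Nat.factorial_pos _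
  have f3 : (0 : ℚ) < (m + 3).factorial := by exact_mod_cast Nat.factorial_pos _
  induction r, hr using Nat.le_induction with
  | base =>
    rw [show m + 1 + 2 = m + 3 by omega]
    have e1 : (0 : ℚ) ≤ 1 / (m + 3).factorial := by positivity
    have e2 : (0 : ℚ) ≤ 3 / 2 * 1 / (m + 1).factorial := by positivity
    simp only [Nat.cast_one, one_pow]
    linarith
  | succ r hr ih =>
    rw [show m + 1 + 2 = m + 3 by omega] at ih ⊢
    rw [show m + 1 + 1 = m + 2 by omega] at ih ⊢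
    have hr1 : (1 : ℚ) ≤ r := by exact_mod_cast hr
    have hr0 : (0 : ℚ) ≤ r := by linarith
    have g2 := h2 r hr
    have g1 := h1 r hr
    rw [show m + 1 - 1 = m by omega] at g1
    have gS : ∑ k ∈ Finset.range (m + 1), (y r k : ℚ) * y 1 (m + 3 - k) ≤ S * (r : ℚ) ^ m := by
      rw [hS, Finset.sum_mul]
      refine Finset.sum_le_sum fun k hk => ?_
      rw [Finset.mem_range] at hk
      have e1 := hKc2 k (by omega) r hr
      have e2 : (r : ℚ) ^ k ≤ (r : ℚ) ^ m := pow_le_pow_right₀ hr1 (by omega)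
      have e3 : (y r k : ℚ) ≤ Kc k * (r : ℚ) ^ m := e1.trans (mul_le_mul_of_nonneg_left e2 (hKc k))
      calc (y r k : ℚ) * y 1 (m + 3 - k) ≤ Kc k * (r : ℚ) ^ m * y 1 (m + 3 - k) :=
            mul_le_mul_of_nonneg_right e3 (Nat.cast_nonneg _)
        _ = _ := by ring
    rw [rec3 hC r m]
    push_cast
    -- the reciprocals of the factorials
    obtain ⟨A3, hA3⟩ : ∃ A : ℚ, A = 1 / ((m + 3).factorial : ℚ) := ⟨_, rfl⟩
    have hA3p : 0 < A3 := by rw [hA3]; positivity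
    have e3 : ((m + 3).factorial : ℚ) = (m + 3) * (m + 2).factorial := by
      rw [Nat.factorial_succ]; push_cast; ring
    have e2 : ((m + 2).factorial : ℚ) = (m + 2) * (m + 1).factorial := by
      rw [Nat.factorial_succ]; push_cast; ring
    have e1 : ((m + 1).factorial : ℚ) = (m + 1) * m.factorial := by
      rw [Nat.factorial_succ]; push_cast; ring
    have a2 : 1 / ((m + 2).factorial : ℚ) = (m + 3) * A3 := by
      rw [hA3, e3]; field_simp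
    have a1 : 1 / ((m + 1).factorial : ℚ) = (m + 2) * ((m + 3) * A3) := by
      rw [← a2, e2]; field_simp
    have a0 : 1 / (m.factorial : ℚ) = (m + 1) * ((m + 2) * ((m + 3) * A3)) := by
      rw [← a1, e1]; field_simp
    have c0 : ∀ x : ℚ, x / (m.factorial : ℚ) = x * ((m + 1) * ((m + 2) * ((m + 3) * A3))) := by
      intro x; rw [← a0]; ring
    have c1 : ∀ x : ℚ, x / ((m + 1).factorial : ℚ) = x * ((m + 2) * ((m + 3) * A3)) := by
      intro x; rw [← a1]; ring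
    have c2 : ∀ x : ℚ, x / ((m + 2).factorial : ℚ) = x * ((m + 3) * A3) := by
      intro x; rw [← a2]; ring
    have c3 : ∀ x : ℚ, x / ((m + 3).factorial : ℚ) = x * A3 := by
      intro x; rw [hA3]; ring
    rw [c3, c1] at ih ⊢
    rw [c2, c0] at g2
    rw [c1] at g1
    have d3 := mul_le_mul_of_nonneg_right (b2 r hr0 (m + 1)) hA3p.le
    have d2 := mul_le_mul_of_nonneg_right (b1 r hr0 (m + 1))
      (show (0 : ℚ) ≤ 3 / 2 * ((m + 2) * ((m + 3) * A3)) by positivity)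
    have d1 := mul_le_mul_of_nonneg_left (b1 r hr0 m) hK0
    push_cast at d3 d2 d1
    rw [show m + 1 + 2 = m + 3 by omega, show m + 1 + 1 = m + 2 by omega] at d3
    rw [show m + 1 + 1 = m + 2 by omega] at d2
    have dm : (S + K₂ + 2 * K₁) * (r : ℚ) ^ m ≤ K * (((m : ℚ) + 1) * (r : ℚ) ^ m) := by
      have q1 : S + K₂ + 2 * K₁ ≤ K := by rw [hK]; linarith
      have q2 : (r : ℚ) ^ m ≤ ((m : ℚ) + 1) * (r : ℚ) ^ m := by
        have : (0 : ℚ) ≤ m * (r : ℚ) ^ m := by positivity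
        linarith
      exact mul_le_mul q1 q2 (by positivity) hK0
    obtain ⟨X0, hX0⟩ : ∃ X : ℚ, X = (r : ℚ) ^ m := ⟨_, rfl⟩
    obtain ⟨X1, hX1⟩ : ∃ X : ℚ, X = (r : ℚ) ^ (m + 1) := ⟨_, rfl⟩
    obtain ⟨X2, hX2⟩ : ∃ X : ℚ, X = (r : ℚ) ^ (m + 2) := ⟨_, rfl⟩
    obtain ⟨X3, hX3⟩ : ∃ X : ℚ, X = (r : ℚ) ^ (m + 3) := ⟨_, rfl⟩
    rw [← hX0] at g1 g2 gS d1 dm
    rw [← hX1] at g1 g2 d1 d2 d3 ih
    rw [← hX2] at g2 d2 d3 ih
    rw [← hX3] at d3 ih
    have id1 : ((m : ℚ) + 1 + 2) * (m + 1 + 1) / 2 * X1 * A3 + ((m : ℚ) + 1 + 1) * X1 *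
        (3 / 2 * ((m + 2) * ((m + 3) * A3))) =
        3 / 2 * X1 * ((m + 1) * ((m + 2) * ((m + 3) * A3))) +
          2 * (X1 * ((m + 2) * ((m + 3) * A3))) := by ring
    have d3' : X3 * A3 + ((m : ℚ) + 1 + 2) * X2 * A3 + ((m : ℚ) + 1 + 2) * (m + 1 + 1) / 2 * X1 * A3 ≤
        ((r : ℚ) + 1) ^ (m + 3) * A3 := by
      refine le_trans (le_of_eq ?_) d3
      ring
    have d2' : 3 / 2 * X2 * ((m + 2) * ((m + 3) * A3)) + ((m : ℚ) + 1 + 1) * X1 *
        (3 / 2 * ((m + 2) * ((m + 3) * A3))) ≤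
        3 / 2 * ((r : ℚ) + 1) ^ (m + 2) * ((m + 2) * ((m + 3) * A3)) := by
      refine le_trans (le_of_eq ?_) (d2.trans (le_of_eq ?_))
      · ring
      · ring
    have d1' : K * X1 + K * (((m : ℚ) + 1) * X0) ≤ K * ((r : ℚ) + 1) ^ (m + 1) := by
      refine le_trans (le_of_eq ?_) d1
      ring
    have g2' : X2 * ((m + 3) * A3) = ((m : ℚ) + 1 + 2) * X2 * A3 := by ring
    have dm' : S * X0 + K₂ * X0 + 2 * (K₁ * X0) ≤ K * (((m : ℚ) + 1) * X0) := by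
      refine le_trans (le_of_eq ?_) dm
      ring
    linarith

theorem main : S_YUP := by
  intro hC n
  have h : ∀ m, PP m := by
    intro m
    induction m using Nat.strong_induction_on with
    | _ m ih =>
      match m, ih with
      | 0, _ =>
        refine ⟨0, le_rfl, fun r _ => ?_⟩
        have h2 := (YTH.main hC r).2.2.1
        have h3 : (2 : ℚ) * y r 2 = r * (r + 3) := by exact_mod_cast h2
        norm_num [Nat.factorial]
        linarith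
      | m + 1, ih => exact step hC m ih
  obtain ⟨K, -, hK⟩ := h n
  exact ⟨K, hK⟩

end Pool.Agent.H89.DP.L.YUP
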